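import Mathlib

open MeasureTheory ProbabilityTheory Filter Finset
open scoped Topology ENNReal NNReal RealInnerProductSpace

namespace Pool.Agent.Lib.MP_21b2a2_pr

variable {E : Type*} [NormedAddCommGroup E] [InnerProductSpace ℝ E] [FiniteDimensional ℝ E]
  [MeasurableSpace E] [BorelSpace E]

/-- projection orthogonally to the unit vector `f` -/
noncomputable def pr (f x : E) : E := x - ⟪f, x⟫ • f

lemma continuous_pr (f : E) : Continuous (pr f) := by
  unfold pr; fun_prop

@[fun_prop]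
lemma measurable_pr (f : E) : Measurable (pr f) := (continuous_pr f).measurable

lemma pr_add (f x y : E) : pr f (x + y) = pr f x + pr f y := by
  simp only [pr, inner_add_right, add_smul]; abel

lemma pr_smul (f : E) (a : ℝ) (x : E) : pr f (a • x) = a • pr f x := by
  simp only [pr, inner_smul_right, smul_sub, smul_smul]

lemma inner_pr (f x : E) (hf : ‖f‖ = 1) : ⟪f, pr f x⟫ = 0 := by
  simp [pr, inner_sub_right, inner_smul_right, real_inner_self_eq_norm_sq, hf]

lemma pr_self (f : E) (hf : ‖f‖ = 1) : pr f f = 0 := by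
  simp [pr, real_inner_self_eq_norm_sq, hf]

lemma pr_pr (f x : E) (hf : ‖f‖ = 1) : pr f (pr f x) = pr f x := by
  rw [pr, inner_pr f x hf]; simp

lemma pr_of_inner_eq_zero (f x : E) (h : ⟪f, x⟫ = 0) : pr f x = x := by
  simp [pr, h]

lemma inner_pr_comm (f x y : E) : ⟪pr f x, y⟫ = ⟪x, pr f y⟫ := by
  simp only [pr, inner_sub_left, inner_sub_right, inner_smul_left, inner_smul_right]
  simp
  rw [real_inner_comm x f]
  ring

lemma norm_sq_eq (f t : E) (hf : ‖f‖ = 1) : ‖t‖^2 = ‖pr f t‖^2 + ⟪f, t⟫^2 := by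
  have h1 : ‖pr f t‖^2 = ⟪pr f t, pr f t⟫ := (real_inner_self_eq_norm_sq _).symm
  rw [h1, inner_pr_comm, pr_pr f t hf]
  simp only [pr, inner_sub_right, inner_smul_right, real_inner_self_eq_norm_sq]
  rw [real_inner_comm t f]
  ring

/-- factorisation of the standard Gaussian along `f` and its orthogonal complement -/
lemma stdGaussian_eq_map (f : E) (hf : ‖f‖ = 1) :
    stdGaussian E = ((stdGaussian E).prod (gaussianReal 0 1)).map
      (fun p : E × ℝ => pr f p.1 + p.2 • f) := by
  have hmeas : Measurable (fun p : E × ℝ => pr f p.1 + p.2 • f) := by fun_prop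
  have : IsProbabilityMeasure (((stdGaussian E).prod (gaussianReal 0 1)).map
      (fun p : E × ℝ => pr f p.1 + p.2 • f)) := Measure.isProbabilityMeasure_map hmeas.aemeasurable
  apply Measure.ext_of_charFun
  ext t
  rw [charFun_stdGaussian, charFun_apply, integral_map hmeas.aemeasurable (by fun_prop)]
  have h1 : ∀ p : E × ℝ, Complex.exp ((⟪pr f p.1 + p.2 • f, t⟫ : ℝ) * Complex.I) =
      Complex.exp ((⟪p.1, pr f t⟫ : ℝ) * Complex.I) *
        Complex.exp ((⟪f, t⟫ : ℝ) * (p.2 : ℂ) * Complex.I) := by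
    intro p
    rw [← Complex.exp_add, inner_add_left, inner_pr_comm, inner_smul_left]
    congr 1
    simp
    ring
  simp_rw [h1]
  rw [integral_prod_mul (fun x : E => Complex.exp ((⟪x, pr f t⟫ : ℝ) * Complex.I))
    (fun y : ℝ => Complex.exp ((⟪f, t⟫ : ℝ) * (y : ℂ) * Complex.I))]
  rw [← charFun_apply, charFun_stdGaussian, ← charFun_apply_real, charFun_gaussianReal]
  rw [← Complex.exp_add]
  congr 1
  have := norm_sq_eq f t hf
  have h2 : ((‖t‖ : ℝ) : ℂ)^2 = ((‖pr f t‖ : ℝ) : ℂ)^2 + ((⟪f, t⟫ : ℝ) : ℂ)^2 := by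
    exact_mod_cast congrArg (fun x : ℝ => (x : ℂ)) this
  rw [h2]
  simp
  ring

/-- one-dimensional marginals -/
lemma stdGaussian_map_inner (e : E) (he : ‖e‖ = 1) :
    (stdGaussian E).map (fun z => ⟪e, z⟫) = gaussianReal 0 1 := by
  have h := IsGaussian.map_eq_gaussianReal (μ := stdGaussian E) (innerSL ℝ e)
  have e1 : ((innerSL ℝ e : StrongDual ℝ E) : E → ℝ) = fun z => ⟪e, z⟫ := by
    ext z; simp
  rw [variance_dual_stdGaussian, integral_strongDual_stdGaussian] at h
  rw [e1] at h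
  rw [h]
  simp [he]

/-- the reflection exchanging `e` and `e'` -/
lemma map_reflection_norm (f e e' : E) (hf : ‖f‖ = 1) (he : ‖e‖ = 1) (he' : ‖e'‖ = 1)
    (hfe : ⟪f, e⟫ = 0) (hfe' : ⟪f, e'⟫ = 0) (b c : ℝ) :
    (stdGaussian E).map (fun z => ‖b • e + c • pr f z‖) =
      (stdGaussian E).map (fun z => ‖b • e' + c • pr f z‖) := by
  let T : E ≃ₗᵢ[ℝ] E := Submodule.reflection (ℝ ∙ (e - e'))ᗮ
  have hTe : T e = e' := Submodule.reflection_sub (by rw [he, he'])
  have hTf : T f = f := by
    apply Submodule.reflection_mem_subspace_eq_self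
    rw [Submodule.mem_orthogonal_singleton_iff_inner_right]
    rw [real_inner_comm, inner_sub_right, hfe, hfe', sub_zero]
  have hpr : ∀ z, pr f (T z) = T (pr f z) := by
    intro z
    have h1 : ⟪f, T z⟫ = ⟪f, z⟫ := by
      conv_lhs => rw [← hTf]
      exact T.inner_map_map f z
    rw [pr, pr, h1, map_sub, map_smul, hTf]
  have hnorm : ∀ z, ‖b • e + c • pr f z‖ = ‖b • e' + c • pr f (T z)‖ := by
    intro z
    rw [hpr, ← hTe, ← map_smul, ← map_smul, ← map_add, T.norm_map]
  have h2 := stdGaussian_map T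
  have h3 : (stdGaussian E).map (fun z => ‖b • e' + c • pr f (T z)‖) =
      ((stdGaussian E).map T).map (fun z => ‖b • e' + c • pr f z‖) := by
    rw [Measure.map_map (by fun_prop) (by fun_prop)]
    rfl
  simp_rw [hnorm]
  rw [h3]
  congr 1

end Pool.Agent.Lib.MP_21b2a2_pr
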