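import Pool.Agent.Lib.MP_21b2a2_pr.RW
import Pool.Agent.Lib.MP_21b2a2_pr.Gauss

open MeasureTheory ProbabilityTheory Filter Finset
open scoped Topology ENNReal NNReal RealInnerProductSpace

namespace Pool.Agent.Lib.MP_21b2a2_pr

variable {E : Type*} [NormedAddCommGroup E] [InnerProductSpace ℝ E] [FiniteDimensional ℝ E]
  [MeasurableSpace E] [BorelSpace E]

/-- one step of the scalar chain -/
noncomputable def stepMap (f : E) (β c : ℝ) (x z : E) : E :=
  ⟪f, x⟫ • f + β • pr f x + (c * ‖pr f x‖) • z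

lemma measurable_stepMap (f : E) (β c : ℝ) :
    Measurable (fun p : E × E => stepMap f β c p.1 p.2) := by
  unfold stepMap; fun_prop

@[fun_prop]
lemma measurable_stepMap' {α : Type*} [MeasurableSpace α] (f : E) (β c : ℝ) {g h : α → E}
    (hg : Measurable g) (hh : Measurable h) :
    Measurable (fun a => stepMap f β c (g a) (h a)) :=
  (measurable_stepMap f β c).comp (hg.prodMk hh)

lemma pr_stepMap (f : E) (hf : ‖f‖ = 1) (β c : ℝ) (x z : E) :
    pr f (stepMap f β c x z) = β • pr f x + (c * ‖pr f x‖) • pr f z := by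
  simp only [stepMap, pr_add, pr_smul, pr_self f hf, pr_pr f x hf, smul_zero, zero_add]

/-- if `pr f x ≠ 0`, the norm of the projection is multiplied by `‖β • e + c • pr f z‖` -/
lemma norm_pr_stepMap (f : E) (hf : ‖f‖ = 1) (β c : ℝ) (x z : E) (hx : pr f x ≠ 0) :
    ‖pr f (stepMap f β c x z)‖ =
      ‖pr f x‖ * ‖β • (‖pr f x‖⁻¹ • pr f x) + c • pr f z‖ := by
  rw [pr_stepMap f hf]
  have h0 : ‖pr f x‖ ≠ 0 := by simpa using hx
  rw [← abs_of_nonneg (norm_nonneg (pr f x)), ← Real.norm_eq_abs, ← norm_smul, norm_norm,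
    smul_add, smul_smul, smul_smul, smul_smul]
  congr 3
  · field_simp
  · ring

/-- transition operator -/
noncomputable def opP (f : E) (β c : ℝ) (g : E → ℝ≥0∞) (x : E) : ℝ≥0∞ :=
  ∫⁻ z, g (stepMap f β c x z) ∂(stdGaussian E)

lemma measurable_opP (f : E) (β c : ℝ) {g : E → ℝ≥0∞} (hg : Measurable g) :
    Measurable (opP f β c g) := by
  unfold opP
  exact Measurable.lintegral_prod_right (hg.comp (measurable_stepMap f β c))

/-- smoothing operator in direction `f` -/
noncomputable def opA (f : E) (σ : ℝ) (g : E → ℝ≥0∞) (y : E) : ℝ≥0∞ :=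
  ∫⁻ η, g (y + (σ * η) • f) ∂(gaussianReal 0 1)

lemma opP_le_of_opA_le (f : E) (hf : ‖f‖ = 1) (β c : ℝ) {g : E → ℝ≥0∞} (hg : Measurable g)
    (x : E) {C : ℝ≥0∞} (h : ∀ y, opA f (c * ‖pr f x‖) g y ≤ C) : opP f β c g x ≤ C := by
  unfold opP
  rw [stdGaussian_eq_map f hf, lintegral_map (by fun_prop) (by fun_prop),
    lintegral_prod _ (by fun_prop)]
  calc _ ≤ ∫⁻ _ : E, C ∂(stdGaussian E) := by
        apply lintegral_mono
        intro z
        refine le_trans (le_of_eq ?_) (h (stepMap f β c x (pr f z)))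
        unfold opA
        apply lintegral_congr
        intro η
        congr 1
        simp only [stepMap, smul_add, smul_smul, add_assoc]
    _ = C := by simp

lemma stepMap_add (f : E) (hf : ‖f‖ = 1) (β c : ℝ) (x z : E) (a : ℝ) :
    stepMap f β c (x + a • f) z = stepMap f β c x z + a • f := by
  have h1 : pr f (x + a • f) = pr f x := by
    rw [pr_add, pr_smul, pr_self f hf]; simp
  have h2 : ⟪f, x + a • f⟫ = ⟪f, x⟫ + a := by
    rw [inner_add_right, inner_smul_right, real_inner_self_eq_norm_sq, hf]; simp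
  simp only [stepMap, h1, h2, add_smul]
  abel

lemma opA_opP_le (f : E) (hf : ‖f‖ = 1) (β c σ : ℝ) {g : E → ℝ≥0∞} (hg : Measurable g)
    {C : ℝ≥0∞} (h : ∀ y, opA f σ g y ≤ C) (y : E) : opA f σ (opP f β c g) y ≤ C := by
  unfold opA opP
  simp_rw [stepMap_add f hf]
  rw [lintegral_lintegral_swap (by fun_prop)]
  calc _ ≤ ∫⁻ _ : E, C ∂(stdGaussian E) := by
        apply lintegral_mono
        intro z
        exact h _
    _ = C := by simp

lemma measurable_iterate_opP (f : E) (β c : ℝ) {g : E → ℝ≥0∞} (hg : Measurable g) (r : ℕ) :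
    Measurable ((opP f β c)^[r] g) := by
  induction r with
  | zero => simpa using hg
  | succ n ih =>
    rw [Function.iterate_succ_apply']
    exact measurable_opP f β c ih

lemma iterate_opP_le (f : E) (hf : ‖f‖ = 1) (β c : ℝ) {g : E → ℝ≥0∞} (hg : Measurable g)
    (x : E) {C : ℝ≥0∞} (h : ∀ y, opA f (c * ‖pr f x‖) g y ≤ C) (r : ℕ) :
    (opP f β c)^[r + 1] g x ≤ C := by
  rw [Function.iterate_succ_apply']
  apply opP_le_of_opA_le f hf β c (measurable_iterate_opP f β c hg r)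
  induction r with
  | zero => simpa using h
  | succ n ih =>
    intro y
    rw [Function.iterate_succ_apply']
    exact opA_opP_le f hf β c _ (measurable_iterate_opP f β c hg n) ih y

/-- small ball estimate for one Gaussian -/
lemma gaussian_small_ball (a b K : ℝ) (hb : b ≠ 0) (hK : 0 ≤ K) :
    gaussianReal 0 1 {η | |a + b * η| ≤ K} ≤ ENNReal.ofReal (2 * K / |b|) := by
  have hle : ∀ s : Set ℝ, MeasurableSet s → gaussianReal 0 1 s ≤ volume s := by
    intro s hs
    rw [gaussianReal_of_var_ne_zero 0 (by norm_num : (1:ℝ≥0) ≠ 0), withDensity_apply _ hs]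
    calc ∫⁻ x in s, gaussianPDF 0 1 x ≤ ∫⁻ x in s, 1 := by
          apply lintegral_mono
          intro x
          unfold gaussianPDF
          rw [← ENNReal.ofReal_one]
          apply ENNReal.ofReal_le_ofReal
          unfold gaussianPDFReal
          have h1 : (√(2 * Real.pi * ((1:ℝ≥0):ℝ)))⁻¹ ≤ 1 := by
            apply inv_le_one_of_one_le₀
            rw [Real.one_le_sqrt]
            have := Real.pi_gt_three
            simp
            linarith
          have h2 : Real.exp (-(x - 0)^2 / (2 * ((1:ℝ≥0):ℝ))) ≤ 1 := by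
            rw [Real.exp_le_one_iff]
            have : 0 ≤ (x-0)^2 := by positivity
            simp only [NNReal.coe_one]
            linarith
          exact mul_le_one₀ h1 (Real.exp_pos _).le h2
      _ = volume s := by simp
  have hset : {η : ℝ | |a + b * η| ≤ K} = Metric.closedBall (-a / b) (K / |b|) := by
    ext η
    simp only [Set.mem_ofPred_eq, Metric.mem_closedBall, Real.dist_eq]
    have hb' : 0 < |b| := abs_pos.2 hb
    rw [le_div_iff₀ hb', ← abs_mul]
    congr! 2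
    field_simp
    ring
  rw [hset]
  refine (hle _ Metric.isClosed_closedBall.measurableSet).trans ?_
  rw [Real.volume_closedBall]
  apply le_of_eq
  congr 1
  ring

lemma opA_indicator_le (f : E) (σ : ℝ) (hσ : 0 < σ) (ℓ : E →L[ℝ] ℝ) (hℓ : ℓ f ≠ 0) (K : ℝ)
    (hK : 0 ≤ K) (y : E) :
    opA f σ ({y | |ℓ y| ≤ K}.indicator 1) y ≤ ENNReal.ofReal (2 * K / (σ * |ℓ f|)) := by
  unfold opA
  have hm : MeasurableSet {y : E | |ℓ y| ≤ K} :=
    measurableSet_le (by fun_prop) measurable_const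
  have h1 : ∀ η : ℝ, ({y : E | |ℓ y| ≤ K}.indicator (1 : E → ℝ≥0∞)) (y + (σ * η) • f) =
      ({η : ℝ | |ℓ y + (σ * ℓ f) * η| ≤ K}.indicator (1 : ℝ → ℝ≥0∞)) η := by
    intro η
    simp only [Set.indicator_apply, Set.mem_ofPred_eq, map_add, map_smul, smul_eq_mul, Pi.one_apply]
    congr! 3
    ring
  simp_rw [h1]
  rw [lintegral_indicator_one (measurableSet_le (by fun_prop) measurable_const)]
  refine (gaussian_small_ball _ _ K (by positivity) hK).trans ?_
  rw [abs_mul, abs_of_pos hσ]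

variable {Ω : Type*} [MeasurableSpace Ω] {P : Measure Ω} [IsProbabilityMeasure P]

/-- the scalar chain: `x (t+1)` is `stepMap (x t) z` with `z` standard Gaussian independent of the
past -/
structure IsChain (f : E) (β c : ℝ) (P : Measure Ω) (x : ℕ → Ω → E) : Prop where
  meas : ∀ t, Measurable (x t)
  step : ∀ t, ∀ F : (Fin (t + 1) → E) × E → ℝ≥0∞, Measurable F →
    ∫⁻ ω, F (fun s => x s ω, x (t + 1) ω) ∂P =
      ∫⁻ ω, ∫⁻ z, F (fun s => x s ω, stepMap f β c (x t ω) z) ∂(stdGaussian E) ∂P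

section chain

variable {f : E} {β c : ℝ} {x : ℕ → Ω → E}

lemma IsChain.markov (hx : IsChain f β c P x) (φ g : E → ℝ≥0∞) (hφ : Measurable φ)
    (hg : Measurable g) (s r : ℕ) :
    ∫⁻ ω, φ (x s ω) * g (x (s + r) ω) ∂P =
      ∫⁻ ω, φ (x s ω) * (opP f β c)^[r] g (x s ω) ∂P := by
  induction r generalizing g with
  | zero => simp
  | succ r ih =>
    have h1 := hx.step (s + r) (fun p => φ (p.1 ⟨s, by omega⟩) * g p.2) (by fun_prop)
    simp only at h1
    rw [← add_assoc, h1]
    have h2 : ∀ ω, ∫⁻ z, φ (x s ω) * g (stepMap f β c (x (s + r) ω) z) ∂(stdGaussian E) =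
        φ (x s ω) * opP f β c g (x (s + r) ω) := by
      intro ω
      rw [lintegral_const_mul _ (by fun_prop)]
      rfl
    simp_rw [h2]
    rw [ih _ (measurable_opP f β c hg), Function.iterate_succ_apply]

lemma IsChain.small_ball (hx : IsChain f β c P x) (hf : ‖f‖ = 1) (hc : 0 < c)
    (ℓ : E →L[ℝ] ℝ) (hℓ : ℓ f ≠ 0) (K : ℝ) (hK : 0 ≤ K) (s t : ℕ) (hst : s < t) (R : ℝ)
    (hR : 0 < R) :
    P {ω | R ≤ ‖pr f (x s ω)‖ ∧ |ℓ (x t ω)| ≤ K} ≤
      ENNReal.ofReal (2 * K / (c * R * |ℓ f|)) := by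
  obtain ⟨r, rfl⟩ : ∃ r, t = s + (r + 1) := ⟨t - s - 1, by omega⟩
  have hm1 : MeasurableSet {y : E | R ≤ ‖pr f y‖} :=
    measurableSet_le measurable_const (by fun_prop)
  have hm2 : MeasurableSet {y : E | |ℓ y| ≤ K} :=
    measurableSet_le (by fun_prop) measurable_const
  have hmx := hx.meas
  have h1 : P {ω | R ≤ ‖pr f (x s ω)‖ ∧ |ℓ (x (s + (r + 1)) ω)| ≤ K} =
      ∫⁻ ω, ({y : E | R ≤ ‖pr f y‖}.indicator 1) (x s ω) *
        ({y : E | |ℓ y| ≤ K}.indicator 1) (x (s + (r + 1)) ω) ∂P := by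
    have hms : MeasurableSet {ω | R ≤ ‖pr f (x s ω)‖ ∧ |ℓ (x (s + (r + 1)) ω)| ≤ K} :=
      (hmx s hm1).inter (hmx (s + (r + 1)) hm2)
    rw [← lintegral_indicator_one hms]
    apply lintegral_congr
    intro ω
    simp only [Set.indicator_apply, Set.mem_ofPred_eq, Pi.one_apply]
    by_cases h1 : R ≤ ‖pr f (x s ω)‖ <;> by_cases h2 : |ℓ (x (s + (r + 1)) ω)| ≤ K <;>
      simp [h1, h2]
  rw [h1, hx.markov _ _ (measurable_one.indicator hm1) (measurable_one.indicator hm2)]
  calc _ ≤ ∫⁻ _, ENNReal.ofReal (2 * K / (c * R * |ℓ f|)) ∂P := by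
        apply lintegral_mono
        intro ω
        simp only
        by_cases h : R ≤ ‖pr f (x s ω)‖
        · have h3 : ({y : E | R ≤ ‖pr f y‖}.indicator (1 : E → ℝ≥0∞)) (x s ω) = 1 := by
            simp [Set.indicator_apply, h]
          rw [h3, one_mul]
          apply iterate_opP_le f hf β c (measurable_one.indicator hm2)
          intro y
          have hpos : 0 < ‖pr f (x s ω)‖ := hR.trans_le h
          refine (opA_indicator_le f _ (by positivity) ℓ hℓ K hK y).trans ?_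
          apply ENNReal.ofReal_le_ofReal
          have : 0 < |ℓ f| := abs_pos.2 hℓ
          apply div_le_div_of_nonneg_left (by positivity) (by positivity)
          gcongr
        · have h3 : ({y : E | R ≤ ‖pr f y‖}.indicator (1 : E → ℝ≥0∞)) (x s ω) = 0 := by
            simp [Set.indicator_apply, h]
          rw [h3, zero_mul]
          exact zero_le
    _ = _ := by simp

/-- the law of the log-increments -/
noncomputable def incLaw (f e : E) (β c : ℝ) : Measure ℝ :=
  (stdGaussian E).map (fun z => Real.log ‖β • e + c • pr f z‖)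

lemma ae_ne_zero (f e : E) (he : ‖e‖ = 1) (hfe : ⟪f, e⟫ = 0) (hc : 0 < c) :
    ∀ᵐ z ∂(stdGaussian E), β • e + c • pr f z ≠ 0 := by
  have h1 : (stdGaussian E) {z | ⟪e, z⟫ = -β / c} = 0 := by
    have h2 : (stdGaussian E) {z | ⟪e, z⟫ = -β / c} =
        ((stdGaussian E).map (fun z => ⟪e, z⟫)) {-β / c} := by
      rw [Measure.map_apply (by fun_prop) (measurableSet_singleton _)]
      rfl
    rw [h2, stdGaussian_map_inner e he]
    have : NullSingletonClass (gaussianReal 0 1) := nullSingletonClass_gaussianReal (by norm_num)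
    exact measure_singleton _
  rw [ae_iff]
  refine measure_mono_null ?_ h1
  intro z hz
  simp only [ne_eq, not_not, Set.mem_ofPred_eq] at hz ⊢
  have h3 : ⟪e, β • e + c • pr f z⟫ = 0 := by rw [hz]; simp
  rw [inner_add_right, inner_smul_right, inner_smul_right, real_inner_self_eq_norm_sq, he] at h3
  have h4 : ⟪e, pr f z⟫ = ⟪e, z⟫ := by
    rw [pr, inner_sub_right, inner_smul_right, real_inner_comm f e, hfe]; simp
  rw [h4] at h3
  field_simp
  linarith

lemma IsChain.ae_pr_ne_zero (hx : IsChain f β c P x) (hf : ‖f‖ = 1) (hc : 0 < c)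
    (h0 : ∀ᵐ ω ∂P, pr f (x 0 ω) ≠ 0) (t : ℕ) : ∀ᵐ ω ∂P, pr f (x t ω) ≠ 0 := by
  induction t with
  | zero => exact h0
  | succ t ih =>
    have hmx := hx.meas
    have hm : MeasurableSet {y : E | pr f y = 0} :=
      (measurable_pr f) (measurableSet_singleton 0)
    have h1 : P {ω | pr f (x (t + 1) ω) = 0} =
        ∫⁻ ω, ({y : E | pr f y = 0}.indicator 1) (x (t + 1) ω) ∂P := by
      have hms : MeasurableSet {ω | pr f (x (t + 1) ω) = 0} := hmx (t + 1) hm
      rw [← lintegral_indicator_one hms]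
      rfl
    have h2 := hx.step t (fun p => ({y : E | pr f y = 0}.indicator 1) p.2)
      ((measurable_one.indicator hm).comp measurable_snd)
    simp only at h2
    rw [h2] at h1
    rw [ae_iff]
    simp only [ne_eq, not_not]
    rw [h1]
    have hmm2 : Measurable (fun p : Ω × E => ({y : E | pr f y = 0}.indicator (1 : E → ℝ≥0∞))
        (stepMap f β c (x t p.1) p.2)) :=
      (measurable_one.indicator hm).comp (by fun_prop)
    have hmm3 := hmm2.lintegral_prod_right' (ν := stdGaussian E)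
    rw [lintegral_eq_zero_iff hmm3]
    filter_upwards [ih] with ω hω
    have hmm : Measurable (fun z => ({y : E | pr f y = 0}.indicator (1 : E → ℝ≥0∞))
        (stepMap f β c (x t ω) z)) :=
      (measurable_one.indicator hm).comp (by fun_prop)
    rw [Pi.zero_apply, lintegral_eq_zero_iff hmm]
    set e : E := ‖pr f (x t ω)‖⁻¹ • pr f (x t ω) with he
    have hn0 : ‖pr f (x t ω)‖ ≠ 0 := by simpa using hω
    have he1 : ‖e‖ = 1 := by
      rw [he, norm_smul, norm_inv, norm_norm]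
      field_simp
    have hfe : ⟪f, e⟫ = 0 := by
      rw [he, inner_smul_right, inner_pr f _ hf, mul_zero]
    filter_upwards [ae_ne_zero (β := β) f e he1 hfe hc] with z hz
    have h3 := norm_pr_stepMap f hf β c (x t ω) z hω
    have h4 : pr f (stepMap f β c (x t ω) z) ≠ 0 := by
      rw [← norm_ne_zero_iff, h3]
      exact mul_ne_zero hn0 (norm_ne_zero_iff.2 hz)
    simp [Set.indicator_apply, h4]

/-- the log-increments -/
noncomputable def logInc (f : E) (x : ℕ → Ω → E) (t : ℕ) (ω : Ω) : ℝ :=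
  Real.log ‖pr f (x (t + 1) ω)‖ - Real.log ‖pr f (x t ω)‖

lemma sum_logInc (t : ℕ) (ω : Ω) :
    ∑ k ∈ range t, logInc f x k ω = Real.log ‖pr f (x t ω)‖ - Real.log ‖pr f (x 0 ω)‖ := by
  unfold logInc
  exact Finset.sum_range_sub (fun k => Real.log ‖pr f (x k ω)‖) t

lemma IsChain.measurable_logInc (hx : IsChain f β c P x) (t : ℕ) : Measurable (logInc f x t) := by
  have hmx := hx.meas
  unfold logInc
  fun_prop

lemma IsChain.map_hist_logInc (hx : IsChain f β c P x) (hf : ‖f‖ = 1) (hc : 0 < c)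
    (e : E) (he : ‖e‖ = 1) (hfe : ⟪f, e⟫ = 0)
    (h0 : ∀ᵐ ω ∂P, pr f (x 0 ω) ≠ 0) (t : ℕ) :
    P.map (fun ω => ((fun s : Fin (t + 1) => x s ω), logInc f x t ω)) =
      (P.map (fun ω (s : Fin (t + 1)) => x s ω)).prod (incLaw f e β c) := by
  have hmx := hx.meas
  have hml := hx.measurable_logInc
  have hν : IsProbabilityMeasure (incLaw f e β c) :=
    Measure.isProbabilityMeasure_map (by fun_prop)
  apply Measure.ext_of_lintegral
  intro F hF
  rw [lintegral_map hF (by fun_prop), lintegral_prod _ hF.aemeasurable, lintegral_map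
    hF.lintegral_prod_right' (by fun_prop)]
  have h1 := hx.step t (fun p => F (p.1, Real.log ‖pr f p.2‖ -
    Real.log ‖pr f (p.1 (Fin.last t))‖)) (by fun_prop)
  simp only [Fin.val_last] at h1
  unfold logInc
  rw [h1]
  apply lintegral_congr_ae
  filter_upwards [hx.ae_pr_ne_zero hf hc h0 t] with ω hω
  set e' : E := ‖pr f (x t ω)‖⁻¹ • pr f (x t ω) with he'
  have hn0 : ‖pr f (x t ω)‖ ≠ 0 := by simpa using hω
  have he1 : ‖e'‖ = 1 := by
    rw [he', norm_smul, norm_inv, norm_norm]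
    field_simp
  have hfe' : ⟪f, e'⟫ = 0 := by
    rw [he', inner_smul_right, inner_pr f _ hf, mul_zero]
  have h2 : ∀ᵐ z ∂(stdGaussian E), Real.log ‖pr f (stepMap f β c (x t ω) z)‖ -
      Real.log ‖pr f (x t ω)‖ = Real.log ‖β • e' + c • pr f z‖ := by
    filter_upwards [ae_ne_zero (β := β) f e' he1 hfe' hc] with z hz
    rw [norm_pr_stepMap f hf β c (x t ω) z hω, Real.log_mul hn0 (norm_ne_zero_iff.2 hz)]
    ring
  have h3 : incLaw f e β c = incLaw f e' β c := by
    unfold incLaw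
    have h4 := map_reflection_norm f e e' hf he he1 hfe hfe' β c
    have h5 : ∀ e : E, (stdGaussian E).map (fun z => Real.log ‖β • e + c • pr f z‖) =
        ((stdGaussian E).map (fun z => ‖β • e + c • pr f z‖)).map Real.log := by
      intro e
      rw [Measure.map_map (by fun_prop) (by fun_prop)]
      rfl
    rw [h5, h5, h4]
  rw [h3]
  unfold incLaw
  rw [lintegral_map (by fun_prop) (by fun_prop)]
  apply lintegral_congr_ae
  filter_upwards [h2] with z hz
  rw [hz]

lemma IsChain.map_logInc (hx : IsChain f β c P x) (hf : ‖f‖ = 1) (hc : 0 < c)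
    (e : E) (he : ‖e‖ = 1) (hfe : ⟪f, e⟫ = 0)
    (h0 : ∀ᵐ ω ∂P, pr f (x 0 ω) ≠ 0) (t : ℕ) :
    P.map (logInc f x t) = incLaw f e β c := by
  have hmx := hx.meas
  have hml := hx.measurable_logInc
  have hν : IsProbabilityMeasure (incLaw f e β c) :=
    Measure.isProbabilityMeasure_map (by fun_prop)
  have h1 := hx.map_hist_logInc hf hc e he hfe h0 t
  have h2 : P.map (logInc f x t) =
      (P.map (fun ω => ((fun s : Fin (t + 1) => x s ω), logInc f x t ω))).map Prod.snd := by
    rw [Measure.map_map (by fun_prop) (by fun_prop)]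
    rfl
  have : IsProbabilityMeasure (P.map (fun ω (s : Fin (t + 1)) => x s ω)) :=
    Measure.isProbabilityMeasure_map (by fun_prop)
  rw [h2, h1, Measure.map_snd_prod]
  simp

lemma IsChain.iIndepFun_logInc (hx : IsChain f β c P x) (hf : ‖f‖ = 1) (hc : 0 < c)
    (e : E) (he : ‖e‖ = 1) (hfe : ⟪f, e⟫ = 0)
    (h0 : ∀ᵐ ω ∂P, pr f (x 0 ω) ≠ 0) : iIndepFun (logInc f x) P := by
  have hmx := hx.meas
  have hml := hx.measurable_logInc
  apply iIndepFun_of_indepFun_past
  intro n
  have h1 : IndepFun (fun ω (s : Fin (n + 1)) => x s ω) (logInc f x n) P := by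
    rw [indepFun_iff_map_prod_eq_prod_map_map (by fun_prop) (by fun_prop)]
    rw [hx.map_hist_logInc hf hc e he hfe h0 n, hx.map_logInc hf hc e he hfe h0 n]
  have h2 := h1.comp (φ := fun (h : Fin (n + 1) → E) (s : Fin n) =>
    Real.log ‖pr f (h s.succ)‖ - Real.log ‖pr f (h s.castSucc)‖) (ψ := id)
    (by fun_prop) measurable_id
  exact h2

/-- **the chain diverges in every direction seen by `f`** -/
theorem IsChain.tendsto (hx : IsChain f β c P x) (hf : ‖f‖ = 1) (hc : 0 < c)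
    (e : E) (he : ‖e‖ = 1) (hfe : ⟪f, e⟫ = 0)
    (h0 : ∀ᵐ ω ∂P, pr f (x 0 ω) ≠ 0)
    (h2 : MemLp id 2 (incLaw f e β c)) (hmean : 0 ≤ ∫ u, u ∂(incLaw f e β c))
    (hvar : Var[id; incLaw f e β c] ≠ 0) (ℓ : E →L[ℝ] ℝ) (hℓ : ℓ f ≠ 0) :
    ∀ᵐ ω ∂P, Tendsto (fun t => |ℓ (x t ω)|) atTop atTop := by
  have hmx := hx.meas
  have hml := hx.measurable_logInc
  have hlaw := hx.map_logInc hf hc e he hfe h0
  have hind := hx.iIndepFun_logInc hf hc e he hfe h0
  have hid : ∀ n, IdentDistrib (logInc f x n) (logInc f x 0) P P := fun n =>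
    ⟨(hml n).aemeasurable, (hml 0).aemeasurable, by rw [hlaw, hlaw]⟩
  have hidν : IdentDistrib (logInc f x 0) id P (incLaw f e β c) :=
    ⟨(hml 0).aemeasurable, aemeasurable_id, by rw [hlaw, Measure.map_id]⟩
  have hA := ae_eventually_exists_log_le hml hind hid (hidν.memLp_iff.2 h2)
    (by rw [hidν.integral_eq]; exact hmean) (by rw [hidν.variance_eq]; exact hvar)
  -- Borel-Cantelli for each `K`
  have hB : ∀ K : ℕ, ∀ᵐ ω ∂P, ∀ᶠ t : ℕ in atTop,
      ¬ ∃ s < t, (t:ℝ)^3 ≤ ‖pr f (x s ω)‖ ∧ |ℓ (x t ω)| ≤ K := by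
    intro K
    have hsum : ∑' t : ℕ, P {ω | ∃ s < t + 1, ((t + 1 : ℕ):ℝ)^3 ≤ ‖pr f (x s ω)‖ ∧
        |ℓ (x (t + 1) ω)| ≤ K} ≠ ∞ := by
      have hle : ∀ t : ℕ, P {ω | ∃ s < t + 1, ((t + 1 : ℕ):ℝ)^3 ≤ ‖pr f (x s ω)‖ ∧
          |ℓ (x (t + 1) ω)| ≤ K} ≤
          ENNReal.ofReal ((2 * K / (c * |ℓ f|)) * (1 / ((t + 1 : ℕ):ℝ)^2)) := by
        intro t
        have hT : (0:ℝ) < ((t + 1 : ℕ):ℝ) := by positivity
        have h1 : {ω | ∃ s < t + 1, ((t + 1 : ℕ):ℝ)^3 ≤ ‖pr f (x s ω)‖ ∧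
            |ℓ (x (t + 1) ω)| ≤ K} = ⋃ s ∈ range (t + 1),
            {ω | ((t + 1 : ℕ):ℝ)^3 ≤ ‖pr f (x s ω)‖ ∧ |ℓ (x (t + 1) ω)| ≤ K} := by
          ext ω; simp only [Set.mem_ofPred_eq, Set.mem_iUnion, mem_range, exists_prop]
        rw [h1]
        refine (measure_biUnion_finset_le _ _).trans ?_
        calc _ ≤ ∑ s ∈ range (t + 1), ENNReal.ofReal (2 * K / (c * ((t + 1 : ℕ):ℝ)^3 * |ℓ f|)) := by
              apply Finset.sum_le_sum
              intro s hs
              exact hx.small_ball hf hc ℓ hℓ K (by positivity) s (t + 1) (Finset.mem_range.1 hs)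
                _ (by positivity)
          _ = ENNReal.ofReal (((t + 1 : ℕ):ℝ) * (2 * K / (c * ((t + 1 : ℕ):ℝ)^3 * |ℓ f|))) := by
              rw [Finset.sum_const, Finset.card_range, nsmul_eq_mul,
                ENNReal.ofReal_mul hT.le, ENNReal.ofReal_natCast]
          _ = _ := by
              congr 1
              have : 0 < |ℓ f| := abs_pos.2 hℓ
              field_simp
      refine ne_top_of_le_ne_top ?_ (ENNReal.tsum_le_tsum hle)
      have hs : Summable (fun t : ℕ => (2 * K / (c * |ℓ f|)) * (1 / ((t + 1 : ℕ):ℝ)^2)) := by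
        apply Summable.mul_left
        exact (summable_nat_add_iff 1).2 (Real.summable_one_div_nat_pow.2 (by norm_num))
      exact hs.tsum_ofReal_ne_top
    have h3 := ae_eventually_notMem hsum
    filter_upwards [h3] with ω hω
    rw [eventually_atTop] at hω ⊢
    obtain ⟨T, hT⟩ := hω
    refine ⟨T + 1, fun t ht => ?_⟩
    obtain ⟨t', rfl⟩ : ∃ t', t = t' + 1 := ⟨t - 1, by omega⟩
    exact hT t' (by omega)
  have hC := ae_all_iff.2 (hx.ae_pr_ne_zero hf hc h0)
  filter_upwards [hA, ae_all_iff.2 hB, hC] with ω hAω hBω hCω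
  rw [tendsto_atTop]
  intro b
  obtain ⟨K, hK⟩ := exists_nat_ge b
  have hlog : ∀ᶠ t : ℕ in atTop, -Real.log ‖pr f (x 0 ω)‖ ≤ Real.log t :=
    (Real.tendsto_log_atTop.comp tendsto_natCast_atTop_atTop).eventually_ge_atTop _
  filter_upwards [hAω, hBω K, hlog, eventually_ge_atTop 1] with t h1 h2 h3 h4
  obtain ⟨s, hs, hs'⟩ := h1
  rw [sum_logInc] at hs'
  by_contra hlt
  rw [not_le] at hlt
  apply h2
  refine ⟨s, hs, ?_, (hlt.trans_le hK).le⟩
  have htpos : (0:ℝ) < t := by exact_mod_cast h4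
  have h5 : Real.log ((t:ℝ)^3) ≤ Real.log ‖pr f (x s ω)‖ := by
    rw [Real.log_pow]
    push_cast
    linarith
  exact (Real.log_le_log_iff (by positivity) (norm_pos_iff.2 (hCω s))).1 h5

end chain

end Pool.Agent.Lib.MP_21b2a2_pr
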