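import Mathlib

open MeasureTheory ProbabilityTheory Filter Finset
open scoped Topology ENNReal NNReal

namespace Pool.Agent.Lib.MP_21b2a2_pr

/-- the real digamma function -/
noncomputable def psi (a : ℝ) : ℝ := deriv Real.Gamma a / Real.Gamma a

lemma log_gamma_aux {a : ℝ} (ha : 0 < a) :
    IntegrableOn (fun t : ℝ => t ^ (a - 1) * (Real.log t * Real.exp (-t))) (Set.Ioi 0) ∧
    ∫ t in Set.Ioi (0:ℝ), t ^ (a - 1) * (Real.log t * Real.exp (-t)) = deriv Real.Gamma a := by
  have hs : 0 < (a : ℂ).re := by simpa using ha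
  have hM := mellin_hasDerivAt_of_isBigO_rpow (E := ℂ) (f := fun x : ℝ => ((Real.exp (-x) : ℝ) : ℂ))
    (a := a + 1) (b := 0) (s := (a : ℂ)) (by
      refine (Continuous.continuousOn ?_).locallyIntegrableOn measurableSet_Ioi
      exact Complex.continuous_ofReal.comp (Real.continuous_exp.comp continuous_neg))
    (by
      rw [← Asymptotics.isBigO_norm_left]
      simp_rw [Complex.norm_real, Asymptotics.isBigO_norm_left]
      simpa only [neg_one_mul] using (isLittleO_exp_neg_mul_rpow_atTop zero_lt_one _).isBigO)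
    (by simp) (by
      simp_rw [neg_zero, Real.rpow_zero]
      refine Asymptotics.isBigO_const_of_tendsto (?_ : Tendsto _ _ (𝓝 (1 : ℂ))) one_ne_zero
      rw [(by simp : (1 : ℂ) = Real.exp (-0))]
      exact (Complex.continuous_ofReal.comp
        (Real.continuous_exp.comp continuous_neg)).continuousWithinAt) (by simpa using ha)
  have hcongr : ∀ t ∈ Set.Ioi (0:ℝ), (t : ℂ) ^ ((a : ℂ) - 1) • (fun t : ℝ => Real.log t •
      ((Real.exp (-t) : ℝ) : ℂ)) t =
      ((t ^ (a - 1) * (Real.log t * Real.exp (-t)) : ℝ) : ℂ) := by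
    intro t ht
    have ht' : (0:ℝ) < t := ht
    push_cast
    rw [Complex.ofReal_cpow ht'.le]
    simp
  have hint : IntegrableOn (fun t : ℝ => t ^ (a - 1) * (Real.log t * Real.exp (-t)))
      (Set.Ioi 0) := by
    have h1 := hM.1
    unfold MellinConvergent at h1
    have h2 := h1.congr_fun hcongr measurableSet_Ioi
    have h3 : Integrable (fun t : ℝ => ((t ^ (a - 1) * (Real.log t * Real.exp (-t)) : ℝ) : ℂ))
        (volume.restrict (Set.Ioi 0)) := h2
    have h4 := h3.re
    simp only [RCLike.re_to_complex, Complex.ofReal_re] at h4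
    exact h4
  refine ⟨hint, ?_⟩
  have hd := hM.2
  have hG : (fun s => Complex.Gamma s) =ᶠ[𝓝 (a : ℂ)]
      mellin (fun x : ℝ => ((Real.exp (-x) : ℝ) : ℂ)) := by
    have hopen : IsOpen {s : ℂ | 0 < s.re} := isOpen_lt continuous_const Complex.continuous_re
    filter_upwards [hopen.mem_nhds hs] with s hs'
    rw [Complex.Gamma_eq_integral hs', Complex.GammaIntegral_eq_mellin]
  have hd2 := (hd.congr_of_eventuallyEq hG).real_of_complex
  have hd3 : HasDerivAt Real.Gamma
      (mellin (fun t : ℝ => Real.log t • ((Real.exp (-t) : ℝ) : ℂ)) (a : ℂ)).re a := hd2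
  rw [hd3.deriv]
  unfold mellin
  rw [setIntegral_congr_fun measurableSet_Ioi hcongr, integral_complex_ofReal, Complex.ofReal_re]

lemma integral_log_gammaMeasure {a : ℝ} (ha : 0 < a) :
    ∫ y, Real.log y ∂(gammaMeasure a (1/2)) = psi a + Real.log 2 := by
  have hG : 0 < Real.Gamma a := Real.Gamma_pos_of_pos ha
  obtain ⟨hint, hval⟩ := log_gamma_aux ha
  unfold gammaMeasure
  have hpm : Measurable (gammaPDF a (1/2)) := by unfold gammaPDF; fun_prop
  rw [integral_withDensity_eq_integral_toReal_smul hpm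
    (ae_of_all _ fun y => by unfold gammaPDF; exact ENNReal.ofReal_lt_top)]
  have h1 : ∀ y : ℝ, (gammaPDF a (1/2) y).toReal • Real.log y =
      (Set.Ioi (0:ℝ)).indicator (fun y => (1/2)^a / Real.Gamma a * (y ^ (a - 1) *
        (Real.log y * Real.exp (-(1/2 * y))))) y := by
    intro y
    simp only [Set.indicator_apply, Set.mem_Ioi, smul_eq_mul]
    rcases lt_trichotomy y 0 with hy | hy | hy
    · rw [if_neg (not_lt.2 hy.le), gammaPDF_of_neg hy]; simp
    · subst hy; simp
    · rw [if_pos hy, gammaPDF_of_nonneg hy.le, ENNReal.toReal_ofReal (by positivity)]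
      ring
  simp_rw [h1]
  rw [integral_indicator measurableSet_Ioi]
  have h2 := integral_comp_mul_left_Ioi (fun y => (1/2)^a / Real.Gamma a * (y ^ (a - 1) *
        (Real.log y * Real.exp (-(1/2 * y))))) 0 (by norm_num : (0:ℝ) < 2)
  rw [mul_zero] at h2
  have h3 : ∫ y in Set.Ioi (0:ℝ), (1/2)^a / Real.Gamma a * (y ^ (a - 1) *
        (Real.log y * Real.exp (-(1/2 * y)))) =
      2 * ∫ u in Set.Ioi (0:ℝ), (1/2)^a / Real.Gamma a * ((2 * u) ^ (a - 1) *
        (Real.log (2 * u) * Real.exp (-(1/2 * (2 * u))))) := by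
    rw [h2]; simp
  rw [h3, ← integral_const_mul]
  have h4 : ∀ u ∈ Set.Ioi (0:ℝ), 2 * ((1/2)^a / Real.Gamma a * ((2 * u) ^ (a - 1) *
        (Real.log (2 * u) * Real.exp (-(1/2 * (2 * u)))))) =
      Real.log 2 / Real.Gamma a * (Real.exp (-u) * u ^ (a - 1)) +
        1 / Real.Gamma a * (u ^ (a - 1) * (Real.log u * Real.exp (-u))) := by
    intro u hu
    have hu' : (0:ℝ) < u := hu
    rw [Real.log_mul (by norm_num) hu'.ne', Real.mul_rpow (by norm_num) hu'.le]
    have e1 : (2:ℝ) * ((1/2)^a * 2 ^ (a - 1)) = 1 := by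
      rw [Real.rpow_sub_one (by norm_num), one_div, Real.inv_rpow (by norm_num)]
      have : (2:ℝ)^a ≠ 0 := by positivity
      field_simp
    have e2 : -(1/2 * (2 * u)) = -u := by ring
    rw [e2]
    calc _ = (2 * ((1/2)^a * 2 ^ (a - 1))) * (u ^ (a - 1) * (Real.log 2 + Real.log u) *
          Real.exp (-u)) / Real.Gamma a := by ring
      _ = _ := by rw [e1]; ring
  rw [setIntegral_congr_fun measurableSet_Ioi h4, integral_add, integral_const_mul,
    integral_const_mul, hval, ← Real.Gamma_eq_integral ha]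
  · unfold psi
    field_simp
    ring
  · exact (Real.GammaIntegral_convergent ha).const_mul _
  · exact hint.const_mul _

end Pool.Agent.Lib.MP_21b2a2_pr
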