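import Mathlib

open MeasureTheory ProbabilityTheory Filter Finset
open scoped Topology ENNReal NNReal

namespace Pool.Agent.Lib.MP_21b2a2_pr

/-- two finite measures on the line whose moment generating functions are finite and agree on
`(-∞, r)` with `0 < r` are equal -/
theorem ext_of_mgf {μ ν : Measure ℝ} [IsFiniteMeasure μ] [IsFiniteMeasure ν] {r : ℝ} (hr : 0 < r)
    (hμ : ∀ t < r, Integrable (fun y => Real.exp (t * y)) μ)
    (hν : ∀ t < r, Integrable (fun y => Real.exp (t * y)) ν)
    (h : ∀ t < r, mgf id μ t = mgf id ν t) : μ = ν := by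
  have hsubμ : Set.Iio r ⊆ integrableExpSet id μ := fun t ht => hμ t ht
  have hsubν : Set.Iio r ⊆ integrableExpSet id ν := fun t ht => hν t ht
  have hintμ : Set.Iio r ⊆ interior (integrableExpSet id μ) := interior_maximal hsubμ isOpen_Iio
  have hintν : Set.Iio r ⊆ interior (integrableExpSet id ν) := interior_maximal hsubν isOpen_Iio
  have hXa : AnalyticOnNhd ℂ (complexMGF id μ) {z | z.re < r} := by
    intro z hz
    exact analyticAt_complexMGF (hintμ hz)
  have hYa : AnalyticOnNhd ℂ (complexMGF id ν) {z | z.re < r} := by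
    intro z hz
    exact analyticAt_complexMGF (hintν hz)
  have hpre : IsPreconnected {z : ℂ | z.re < r} := (convex_halfSpace_re_lt r).isPreconnected
  have heq : Set.EqOn (complexMGF id μ) (complexMGF id ν) {z | z.re < r} := by
    refine AnalyticOnNhd.eqOn_of_preconnected_of_frequently_eq hXa hYa hpre
      (z₀ := ((0:ℝ) : ℂ)) (by simpa using hr) ?_
    have h_real : ∃ᶠ (x : ℝ) in 𝓝[≠] 0, complexMGF id μ x = complexMGF id ν x := by
      apply Eventually.frequently
      apply eventually_nhdsWithin_of_eventually_nhds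
      filter_upwards [Iio_mem_nhds hr] with t ht
      rw [complexMGF_ofReal, complexMGF_ofReal, h t ht]
    rw [frequently_iff_seq_forall] at h_real ⊢
    obtain ⟨xs, hx_tendsto, hx_eq⟩ := h_real
    refine ⟨fun n ↦ xs n, ?_, fun n ↦ ?_⟩
    · rw [tendsto_nhdsWithin_iff] at hx_tendsto ⊢
      constructor
      · exact (Complex.continuous_ofReal.tendsto _).comp hx_tendsto.1
      · simpa using hx_tendsto.2
    · simp [hx_eq]
  apply Measure.ext_of_charFun
  ext t
  rw [← complexMGF_id_mul_I, ← complexMGF_id_mul_I]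
  apply heq
  simpa using hr

/-- one-dimensional Gaussian computation -/
lemma gaussian_exp_sq (b t : ℝ) (ht : t < 1 / 2) :
    Integrable (fun z => Real.exp (t * (b + z)^2)) (gaussianReal 0 1) ∧
    ∫ z, Real.exp (t * (b + z)^2) ∂(gaussianReal 0 1) =
      (1 - 2 * t) ^ (-(1/2) : ℝ) * Real.exp (b^2 * t / (1 - 2 * t)) := by
  have h0 : 0 < 1 - 2 * t := by linarith
  set q : ℝ := (1 - 2 * t) / 2 with hq
  have hq0 : 0 < q := by positivity
  set m : ℝ := 2 * t * b / (1 - 2 * t) with hm
  have hpt : ∀ z : ℝ, gaussianPDFReal 0 1 z * Real.exp (t * (b + z)^2) =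
      ((√(2 * Real.pi))⁻¹ * Real.exp (b^2 * t / (1 - 2 * t))) *
        Real.exp (-q * (z - m)^2) := by
    intro z
    unfold gaussianPDFReal
    simp only [NNReal.coe_one, mul_one, sub_zero]
    rw [mul_assoc, mul_assoc, ← Real.exp_add, ← Real.exp_add]
    congr 2
    rw [hq, hm]
    field_simp
    ring
  have hint : Integrable (fun z : ℝ => Real.exp (-q * (z - m)^2)) :=
    (integrable_exp_neg_mul_sq hq0).comp_sub_right m
  constructor
  · rw [gaussianReal_of_var_ne_zero 0 (by norm_num : (1:ℝ≥0) ≠ 0)]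
    rw [integrable_withDensity_iff_integrable_smul' (measurable_gaussianPDF 0 1)
      (ae_of_all _ fun z => gaussianPDF_lt_top)]
    refine (hint.const_mul ((√(2 * Real.pi))⁻¹ * Real.exp (b^2 * t / (1 - 2 * t)))).congr ?_
    apply ae_of_all
    intro z
    simp only
    rw [← hpt z, smul_eq_mul, gaussianPDF, ENNReal.toReal_ofReal (gaussianPDFReal_nonneg _ _ _)]
  · rw [integral_gaussianReal_eq_integral_smul (by norm_num)]
    simp_rw [smul_eq_mul, hpt]
    rw [integral_const_mul, integral_sub_right_eq_self (fun z => Real.exp (-q * z^2)) m,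
      integral_gaussian]
    have h1 : √(Real.pi / q) = √(2 * Real.pi) * (1 - 2 * t) ^ (-(1/2) : ℝ) := by
      rw [hq, Real.rpow_neg h0.le, ← Real.sqrt_eq_rpow, ← Real.sqrt_inv, ← Real.sqrt_mul
        (by positivity)]
      congr 1
      field_simp
    rw [h1]
    have h2 : √(2 * Real.pi) ≠ 0 := by positivity
    field_simp

/-- Laplace transform of the Gamma law -/
lemma gamma_exp (a t : ℝ) (ha : 0 < a) (ht : t < 1 / 2) :
    ∫⁻ y, ENNReal.ofReal (Real.exp (t * y)) ∂(gammaMeasure a (1/2)) =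
      ENNReal.ofReal ((1 - 2 * t) ^ (-a)) := by
  have h0 : 0 < 1 - 2 * t := by linarith
  have hG : 0 < Real.Gamma a := Real.Gamma_pos_of_pos ha
  unfold gammaMeasure
  rw [lintegral_withDensity_eq_lintegral_mul _ (by unfold gammaPDF; fun_prop) (by fun_prop)]
  have h1 : ∫⁻ y, (gammaPDF a (1/2) * fun y => ENNReal.ofReal (Real.exp (t * y))) y =
      ∫⁻ y in Set.Ioi 0, ENNReal.ofReal ((1/2)^a / Real.Gamma a * (y ^ (a - 1) *
        Real.exp (-((1/2 - t) * y)))) := by
    rw [← lintegral_indicator measurableSet_Ioi]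
    have hae : ∀ᵐ y : ℝ, y ≠ 0 := by
      rw [ae_iff]; simp
    apply lintegral_congr_ae
    filter_upwards [hae] with y hy
    simp only [Pi.mul_apply, Set.indicator_apply, Set.mem_Ioi]
    rcases lt_or_gt_of_ne hy with hy | hy
    · rw [if_neg (not_lt.2 hy.le), gammaPDF_of_neg hy, zero_mul]
    · rw [if_pos hy, gammaPDF_of_nonneg hy.le, ← ENNReal.ofReal_mul (by positivity)]
      congr 1
      rw [mul_assoc, mul_assoc, ← Real.exp_add]
      congr 3
      ring
  rw [h1, ← ofReal_integral_eq_lintegral_ofReal]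
  · congr 1
    rw [integral_const_mul, Real.integral_rpow_mul_exp_neg_mul_Ioi ha (by linarith)]
    rw [Real.rpow_neg h0.le, show (1 / (1/2 - t)) = 2 * (1 - 2 * t)⁻¹ by field_simp]
    rw [Real.mul_rpow (by norm_num) (by positivity), Real.inv_rpow h0.le]
    rw [show ((1:ℝ)/2)^a = (2^a)⁻¹ by rw [one_div, Real.inv_rpow (by norm_num)]]
    have : (2:ℝ)^a ≠ 0 := by positivity
    field_simp
  · apply Integrable.const_mul
    have := Real.integral_rpow_mul_exp_neg_mul_Ioi ha (show 0 < 1/2 - t by linarith)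
    by_contra hn
    have h2 : ∫ (y : ℝ) in Set.Ioi 0, y ^ (a - 1) * Real.exp (-((1/2 - t) * y)) = 0 :=
      integral_undef hn
    rw [h2] at this
    have h3 : 0 < (1 / (1/2 - t)) ^ a * Real.Gamma a := by
      have : 0 < 1/2 - t := by linarith
      positivity
    linarith
  · filter_upwards [ae_restrict_mem measurableSet_Ioi] with y hy
    have : (0:ℝ) < y := hy
    simp only [Pi.zero_apply]
    positivity

/-- Poisson weights -/
noncomputable def pw (x : ℝ) (j : ℕ) : ℝ := Real.exp (-x) * (x ^ j / (Nat.factorial j : ℝ))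

lemma pw_nonneg {x : ℝ} (hx : 0 ≤ x) (j : ℕ) : 0 ≤ pw x j := by
  unfold pw; positivity

lemma hasSum_pw_mul_pow (x y : ℝ) :
    HasSum (fun j => pw x j * y ^ j) (Real.exp (-x) * Real.exp (x * y)) := by
  have h : HasSum (fun n : ℕ => (x * y) ^ n / (Nat.factorial n : ℝ)) (Real.exp (x * y)) := by
    rw [Real.exp_eq_exp_ℝ]
    exact NormedSpace.expSeries_div_hasSum_exp (x * y)
  have h2 := h.mul_left (Real.exp (-x))
  refine h2.congr_fun ?_
  intro j
  unfold pw
  rw [mul_pow]
  ring

/-- Poisson mixture of Gamma laws -/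
noncomputable def mix (a x : ℝ) : Measure ℝ :=
  Measure.sum (fun j : ℕ => ENNReal.ofReal (pw x j) • gammaMeasure (a + j) (1/2))

lemma mix_exp (a x t : ℝ) (ha : 0 < a) (hx : 0 ≤ x) (ht : t < 1 / 2) :
    ∫⁻ y, ENNReal.ofReal (Real.exp (t * y)) ∂(mix a x) =
      ENNReal.ofReal ((1 - 2 * t) ^ (-a) * Real.exp (2 * x * t / (1 - 2 * t))) := by
  have h0 : 0 < 1 - 2 * t := by linarith
  unfold mix
  rw [lintegral_sum_measure]
  simp_rw [lintegral_smul_measure]
  have h1 : ∀ j : ℕ, ENNReal.ofReal (pw x j) • ∫⁻ y, ENNReal.ofReal (Real.exp (t * y))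
      ∂(gammaMeasure (a + j) (1/2)) =
      ENNReal.ofReal ((1 - 2 * t) ^ (-a) * (pw x j * ((1 - 2 * t)⁻¹) ^ j)) := by
    intro j
    rw [gamma_exp _ _ (by positivity) ht, smul_eq_mul, ← ENNReal.ofReal_mul (pw_nonneg hx j)]
    congr 1
    rw [neg_add, Real.rpow_add h0, Real.rpow_neg h0.le (j:ℝ), Real.rpow_natCast, inv_pow]
    ring
  simp_rw [h1]
  have hs := (hasSum_pw_mul_pow x ((1 - 2 * t)⁻¹)).mul_left ((1 - 2 * t) ^ (-a))
  rw [← ENNReal.ofReal_tsum_of_nonneg _ hs.summable, hs.tsum_eq, ← Real.exp_add]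
  · congr 3
    field_simp
    ring
  · intro j
    have := pw_nonneg hx j
    positivity

lemma isProbabilityMeasure_mix (a x : ℝ) (ha : 0 < a) (hx : 0 ≤ x) :
    IsProbabilityMeasure (mix a x) := by
  constructor
  have := mix_exp a x 0 ha hx (by norm_num)
  simpa using this

end Pool.Agent.Lib.MP_21b2a2_pr
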