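import Pool.Agent.Lib.MP_21b2a2_pr.Chain
import Pool.Agent.Lib.MP_21b2a2_pr.Mgf
import Pool.Agent.Lib.MP_21b2a2_pr.Digamma

open MeasureTheory ProbabilityTheory Filter Finset
open scoped Topology ENNReal NNReal RealInnerProductSpace

namespace Pool.Agent.Lib.MP_21b2a2_pr

variable {E : Type*} [NormedAddCommGroup E] [InnerProductSpace ℝ E] [FiniteDimensional ℝ E]
  [MeasurableSpace E] [BorelSpace E]

/-- an orthonormal basis starting with two given vectors -/
lemma exists_basis {m : ℕ} (hE : Module.finrank ℝ E = m + 2) (f e : E) (hf : ‖f‖ = 1)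
    (he : ‖e‖ = 1) (hfe : ⟪f, e⟫ = 0) :
    ∃ B : OrthonormalBasis (Fin (m + 2)) ℝ E, B 0 = f ∧ B 1 = e := by
  have hv : Orthonormal ℝ (({0, 1} : Set (Fin (m + 2))).domRestrict
      (fun i : Fin (m + 2) => if i = 0 then f else e)) := by
    constructor
    · rintro ⟨i, hi⟩
      simp only [Set.domRestrict_apply]
      split_ifs <;> assumption
    · rintro ⟨i, hi⟩ ⟨j, hj⟩ hij
      simp only [Set.domRestrict_apply, ne_eq, Subtype.mk.injEq] at hij ⊢
      simp only [Set.mem_insert_iff, Set.mem_singleton_iff] at hi hj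
      rcases hi with rfl | rfl <;> rcases hj with rfl | rfl
      · exact absurd rfl hij
      · simpa using hfe
      · simpa [real_inner_comm] using hfe
      · exact absurd rfl hij
  obtain ⟨B, hB⟩ := hv.exists_orthonormalBasis_extension_of_card_eq (by simpa using hE)
  refine ⟨B, ?_, ?_⟩
  · simpa using hB 0 (by simp)
  · simpa using hB 1 (by simp)

/-- the moment generating function of `‖b • e + pr f z‖²` -/
lemma exp_norm_sq {m : ℕ} (hE : Module.finrank ℝ E = m + 2) (f e : E) (hf : ‖f‖ = 1)
    (he : ‖e‖ = 1) (hfe : ⟪f, e⟫ = 0) (b t : ℝ) (ht : t < 1 / 2) :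
    Integrable (fun z => Real.exp (t * ‖b • e + pr f z‖^2)) (stdGaussian E) ∧
    ∫ z, Real.exp (t * ‖b • e + pr f z‖^2) ∂(stdGaussian E) =
      (1 - 2 * t) ^ (-((m + 1 : ℝ) / 2)) * Real.exp (2 * (b^2 / 2) * t / (1 - 2 * t)) := by
  have h0 : 0 < 1 - 2 * t := by linarith
  obtain ⟨B, hB0, hB1⟩ := exists_basis hE f e hf he hfe
  have hmeas : Measurable (fun x : Fin (m + 2) → ℝ => ∑ i, x i • B i) := by fun_prop
  set h : Fin (m + 2) → ℝ → ℝ := fun i u =>
    Real.exp (t * (b * (if i = 1 then 1 else 0) + (if i = 0 then 0 else 1) * u)^2) with hh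
  have hkey : ∀ x : Fin (m + 2) → ℝ,
      Real.exp (t * ‖b • e + pr f (∑ i, x i • B i)‖^2) = ∏ i, h i (x i) := by
    intro x
    rw [hh, ← Real.exp_sum, ← Finset.mul_sum]
    congr 2
    rw [← B.sum_sq_norm_inner_right]
    apply Finset.sum_congr rfl
    intro i _
    rw [Real.norm_eq_abs, sq_abs]
    congr 1
    have hin : ∀ j, ⟪B i, B j⟫ = if i = j then 1 else 0 :=
      fun j => (orthonormal_iff_ite.1 B.orthonormal) i j
    have hsum : ∀ i, ⟪B i, ∑ j, x j • B j⟫ = x i := by
      intro i
      rw [inner_sum]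
      simp_rw [inner_smul_right, (orthonormal_iff_ite.1 B.orthonormal) i]
      simp
    rw [← hB1, ← hB0, pr, inner_add_right, inner_sub_right, inner_smul_right, inner_smul_right,
      hsum, hsum, hin, hin]
    by_cases hi : i = 0
    · subst hi; simp
    · simp [hi]
  rw [stdGaussian_eq_map_pi_orthonormalBasis B]
  have hone : ∀ i, Integrable (h i) (gaussianReal 0 1) ∧ ∫ u, h i u ∂(gaussianReal 0 1) =
      if i = 0 then 1 else (if i = 1 then (1 - 2 * t) ^ (-(1/2) : ℝ) *
        Real.exp (b^2 * t / (1 - 2 * t)) else (1 - 2 * t) ^ (-(1/2) : ℝ)) := by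
    intro i
    by_cases hi0 : i = 0
    · subst hi0
      have : h 0 = fun _ => 1 := by
        ext u; simp [hh]
      rw [this]
      simp
    · by_cases hi1 : i = 1
      · subst hi1
        have : h 1 = fun u => Real.exp (t * (b + u)^2) := by
          ext u; simp [hh]
        rw [this]
        have := gaussian_exp_sq b t ht
        simpa using this
      · have : h i = fun u => Real.exp (t * (0 + u)^2) := by
          ext u; simp [hh, hi0, hi1]
        rw [this]
        have := gaussian_exp_sq 0 t ht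
        simpa [hi0, hi1] using this
  constructor
  · rw [integrable_map_measure (by
      apply Continuous.aestronglyMeasurable
      have := continuous_pr f
      fun_prop) hmeas.aemeasurable]
    refine (Integrable.fintype_prod (f := h) (fun i => (hone i).1)).congr ?_
    exact ae_of_all _ fun x => (hkey x).symm
  · rw [integral_map hmeas.aemeasurable (by
      apply Continuous.aestronglyMeasurable
      have := continuous_pr f
      fun_prop)]
    simp_rw [hkey]
    rw [integral_fintype_prod_eq_prod]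
    simp_rw [(hone _).2]
    rw [Fin.prod_univ_succ, Fin.prod_univ_succ]
    have e1 : ∀ i : Fin m, (i.succ.succ : Fin (m + 2)) ≠ 1 := by
      intro i h
      have := congrArg Fin.val h
      simp at this
    have e0 : (1 : Fin (m + 2)) ≠ 0 := by simp
    simp only [Fin.succ_ne_zero, if_true, if_false, e0, e1, Fin.succ_zero_eq_one, one_mul,
      Finset.prod_const, Finset.card_univ, Fintype.card_fin]
    rw [← Real.rpow_natCast ((1 - 2 * t) ^ (-(1/2) : ℝ)) m, ← Real.rpow_mul h0.le]
    have e2 : (1 - 2 * t) ^ (-((m + 1 : ℝ) / 2)) =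
        (1 - 2 * t) ^ (-(1/2) : ℝ) * (1 - 2 * t) ^ (-(1/2) * (m : ℝ)) := by
      rw [← Real.rpow_add h0]
      congr 1
      ring
    rw [e2]
    have e3 : 2 * (b^2 / 2) * t = b^2 * t := by ring
    rw [e3]
    ring

/-- the law of `‖b • e + pr f z‖²` is a Poisson mixture of Gamma laws -/
lemma map_norm_sq_eq_mix {m : ℕ} (hE : Module.finrank ℝ E = m + 2) (f e : E) (hf : ‖f‖ = 1)
    (he : ‖e‖ = 1) (hfe : ⟪f, e⟫ = 0) (b : ℝ) :
    (stdGaussian E).map (fun z => ‖b • e + pr f z‖^2) = mix ((m + 1 : ℝ) / 2) (b^2 / 2) := by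
  have hm : Measurable (fun z : E => ‖b • e + pr f z‖^2) := by fun_prop
  have ha : (0:ℝ) < (m + 1 : ℝ) / 2 := by positivity
  have hx : (0:ℝ) ≤ b^2 / 2 := by positivity
  have := isProbabilityMeasure_mix _ _ ha hx
  have : IsProbabilityMeasure ((stdGaussian E).map (fun z : E => ‖b • e + pr f z‖^2)) :=
    Measure.isProbabilityMeasure_map hm.aemeasurable
  have hmixint : ∀ t < (1/2 : ℝ), Integrable (fun y => Real.exp (t * y))
      (mix ((m + 1 : ℝ) / 2) (b^2 / 2)) := by
    intro t ht
    refine ⟨by fun_prop, ?_⟩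
    rw [hasFiniteIntegral_iff_ofReal (ae_of_all _ fun y => (Real.exp_pos _).le),
      mix_exp _ _ _ ha hx ht]
    exact ENNReal.ofReal_lt_top
  apply ext_of_mgf (r := 1/2) (by norm_num)
  · intro t ht
    rw [integrable_map_measure (by fun_prop) hm.aemeasurable]
    exact (exp_norm_sq hE f e hf he hfe b t ht).1
  · exact hmixint
  · intro t ht
    unfold mgf
    simp only [id_eq]
    rw [integral_map hm.aemeasurable (by fun_prop), (exp_norm_sq hE f e hf he hfe b t ht).2]
    rw [integral_eq_lintegral_of_nonneg_ae (ae_of_all _ fun y => (Real.exp_pos _).le)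
      (by fun_prop), mix_exp _ _ _ ha hx ht, ENNReal.toReal_ofReal]
    have h0 : 0 < 1 - 2 * t := by linarith
    positivity

end Pool.Agent.Lib.MP_21b2a2_pr
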