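import Pool.Agent.Lib.MP_21b2a2_pr.Law

open MeasureTheory ProbabilityTheory Filter Finset
open scoped Topology ENNReal NNReal RealInnerProductSpace

namespace Pool.Agent.Lib.MP_21b2a2_pr

/-- the function `φ_a(x)` of the statement -/
noncomputable def phi (a x : ℝ) : ℝ :=
  Real.exp (-x) * ∑' j : ℕ, x ^ j / (Nat.factorial j : ℝ) * psi (j + a)

lemma gaussianReal_le_volume : gaussianReal 0 1 ≤ (volume : Measure ℝ) := by
  rw [gaussianReal_of_var_ne_zero 0 (by norm_num : (1:ℝ≥0) ≠ 0)]
  refine Measure.le_iff.2 fun s hs => ?_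
  rw [withDensity_apply _ hs]
  calc ∫⁻ x in s, gaussianPDF 0 1 x ≤ ∫⁻ x in s, 1 := by
        apply lintegral_mono
        intro x
        unfold gaussianPDF
        rw [← ENNReal.ofReal_one]
        apply ENNReal.ofReal_le_ofReal
        unfold gaussianPDFReal
        have h1 : (√(2 * Real.pi * ((1:ℝ≥0):ℝ)))⁻¹ ≤ 1 := by
          apply inv_le_one_of_one_le₀
          rw [Real.one_le_sqrt]
          have := Real.pi_gt_three
          simp
          linarith
        have h2 : Real.exp (-(x - 0)^2 / (2 * ((1:ℝ≥0):ℝ))) ≤ 1 := by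
          rw [Real.exp_le_one_iff]
          have : 0 ≤ (x-0)^2 := by positivity
          simp only [NNReal.coe_one]
          linarith
        exact mul_le_one₀ h1 (Real.exp_pos _).le h2
    _ = volume s := by simp

/-- the comparison function for the logarithmic singularity -/
noncomputable def sing (v : ℝ) : ℝ := (Set.Ioc (-1 : ℝ) 1).indicator (fun v => |v| ^ (-(1/2) : ℝ)) v

lemma sing_nonneg (v : ℝ) : 0 ≤ sing v := by
  unfold sing
  apply Set.indicator_nonneg
  intro v _
  positivity

lemma integrable_sing : Integrable sing := by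
  have h := (intervalIntegral.intervalIntegrable_cpow' (r := ((-(1/2) : ℝ) : ℂ)) (a := -1) (b := 1)
    (by rw [Complex.ofReal_re]; norm_num)).norm
  rw [intervalIntegrable_iff_integrableOn_Ioc_of_le (by norm_num)] at h
  unfold sing
  rw [show (fun v => (Set.Ioc (-1 : ℝ) 1).indicator (fun v => |v| ^ (-(1/2) : ℝ)) v) =
    (Set.Ioc (-1 : ℝ) 1).indicator (fun v => |v| ^ (-(1/2) : ℝ)) from rfl]
  rw [integrable_indicator_iff measurableSet_Ioc]
  refine h.congr_fun ?_ measurableSet_Ioc
  intro v _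
  simp only
  rw [Complex.norm_cpow_real]
  simp

lemma log_sq_le (R v : ℝ) (hv : v ≠ 0) (h : |v| ≤ R) :
    (Real.log R)^2 ≤ R^2 + 16 * sing v := by
  have hv' : 0 < |v| := abs_pos.2 hv
  have hR : 0 < R := hv'.trans_le h
  have hs := sing_nonneg v
  rcases le_or_gt 1 R with h1 | h1
  · have h2 := Real.log_nonneg h1
    have h3 : Real.log R ≤ R := by
      have := Real.log_le_sub_one_of_pos hR
      linarith
    have : (Real.log R)^2 ≤ R^2 := by
      apply pow_le_pow_left₀ h2 h3
    linarith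
  · have h2 : Real.log R < 0 := Real.log_neg hR h1
    have h3 : Real.log |v| ≤ Real.log R := Real.log_le_log hv' h
    have h4 : -Real.log |v| ≤ 4 * |v| ^ (-(1/4) : ℝ) := by
      have h5 := Real.log_le_sub_one_of_pos (show 0 < |v| ^ (-(1/4) : ℝ) by positivity)
      rw [Real.log_rpow hv'] at h5
      linarith
    have h6 : (Real.log R)^2 ≤ (4 * |v| ^ (-(1/4) : ℝ))^2 := by
      rw [← neg_sq]
      apply pow_le_pow_left₀ (by linarith)
      linarith
    have h7 : sing v = |v| ^ (-(1/2) : ℝ) := by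
      unfold sing
      rw [Set.indicator_of_mem]
      have := abs_lt.1 (h.trans_lt h1)
      exact ⟨this.1, this.2.le⟩
    have h8 : (4 * |v| ^ (-(1/4) : ℝ))^2 = 16 * |v| ^ (-(1/2) : ℝ) := by
      rw [mul_pow, ← Real.rpow_natCast (|v| ^ (-(1/4) : ℝ)) 2, ← Real.rpow_mul hv'.le]
      norm_num
    rw [h7, ← h8]
    have : 0 ≤ R^2 := by positivity
    linarith

variable {E : Type*} [NormedAddCommGroup E] [InnerProductSpace ℝ E] [FiniteDimensional ℝ E]
  [MeasurableSpace E] [BorelSpace E]

lemma abs_le_norm (f e : E) (he : ‖e‖ = 1) (hfe : ⟪f, e⟫ = 0) (β c : ℝ) (z : E) :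
    |β + c * ⟪e, z⟫| ≤ ‖β • e + c • pr f z‖ := by
  have h1 : ⟪e, β • e + c • pr f z⟫ = β + c * ⟪e, z⟫ := by
    rw [inner_add_right, inner_smul_right, inner_smul_right, real_inner_self_eq_norm_sq, he,
      pr, inner_sub_right, inner_smul_right, real_inner_comm f e, hfe]
    simp
  rw [← h1]
  have := abs_real_inner_le_norm e (β • e + c • pr f z)
  rwa [he, one_mul] at this

lemma ae_lin_ne_zero (e : E) (he : ‖e‖ = 1) (β c : ℝ) (hc : 0 < c) :
    ∀ᵐ z ∂(stdGaussian E), β + c * ⟪e, z⟫ ≠ 0 := by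
  have h1 : (stdGaussian E) {z | ⟪e, z⟫ = -β / c} = 0 := by
    have h2 : (stdGaussian E) {z | ⟪e, z⟫ = -β / c} =
        ((stdGaussian E).map (fun z => ⟪e, z⟫)) {-β / c} := by
      rw [Measure.map_apply (by fun_prop) (measurableSet_singleton _)]
      rfl
    rw [h2, stdGaussian_map_inner e he]
    have : NullSingletonClass (gaussianReal 0 1) := nullSingletonClass_gaussianReal (by norm_num)
    exact measure_singleton _
  rw [ae_iff]
  refine measure_mono_null ?_ h1
  intro z hz
  simp only [ne_eq, not_not, Set.mem_ofPred_eq] at hz ⊢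
  field_simp
  linarith

lemma norm_scale (f e : E) (β c : ℝ) (hc : 0 < c) (z : E) :
    ‖β • e + c • pr f z‖ = c * ‖(β / c) • e + pr f z‖ := by
  rw [← abs_of_pos hc, ← Real.norm_eq_abs, ← norm_smul, smul_add, smul_smul, Real.norm_eq_abs,
    abs_of_pos hc, mul_div_cancel₀ _ hc.ne']

lemma memLp_log {m : ℕ} (hE : Module.finrank ℝ E = m + 2) (f e : E) (hf : ‖f‖ = 1)
    (he : ‖e‖ = 1) (hfe : ⟪f, e⟫ = 0) (β c : ℝ) (hc : 0 < c) :
    MemLp (fun z => Real.log ‖β • e + c • pr f z‖) 2 (stdGaussian E) := by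
  have hm : Measurable (fun z : E => Real.log ‖β • e + c • pr f z‖) := by fun_prop
  rw [memLp_two_iff_integrable_sq hm.aestronglyMeasurable]
  have hi1 : Integrable (fun z : E => ‖β • e + c • pr f z‖^2) (stdGaussian E) := by
    have h := (exp_norm_sq hE f e hf he hfe (β / c) (1/4) (by norm_num)).1
    refine (h.const_mul (4 * c^2)).mono' (by fun_prop) (ae_of_all _ fun z => ?_)
    rw [norm_scale f e β c hc z, Real.norm_eq_abs, abs_of_nonneg (by positivity), mul_pow]
    have h2 := Real.add_one_le_exp (1/4 * ‖(β / c) • e + pr f z‖^2)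
    have h3 : (0:ℝ) < c^2 := by positivity
    nlinarith
  have hi2 : Integrable (fun z : E => sing (β + c * ⟪e, z⟫)) (stdGaussian E) := by
    have h1 : Integrable (fun u => sing (β + c * u)) (volume : Measure ℝ) := by
      have := (integrable_sing.comp_add_left β)
      exact this.comp_mul_left' hc.ne'
    have h2 : Integrable (fun u => sing (β + c * u)) (gaussianReal 0 1) :=
      h1.mono_measure gaussianReal_le_volume
    rw [← stdGaussian_map_inner e he] at h2
    exact h2.comp_measurable (by fun_prop)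
  refine (hi1.add (hi2.const_mul 16)).mono' (hm.pow_const 2).aestronglyMeasurable ?_
  filter_upwards [ae_lin_ne_zero e he β c hc] with z hz
  rw [Real.norm_eq_abs, abs_of_nonneg (by positivity)]
  exact log_sq_le _ _ hz (abs_le_norm f e he hfe β c z)

lemma memLp_incLaw {m : ℕ} (hE : Module.finrank ℝ E = m + 2) (f e : E) (hf : ‖f‖ = 1)
    (he : ‖e‖ = 1) (hfe : ⟪f, e⟫ = 0) (β c : ℝ) (hc : 0 < c) :
    MemLp id 2 (incLaw f e β c) := by
  unfold incLaw
  rw [memLp_map_measure_iff (by fun_prop) (by fun_prop)]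
  exact memLp_log hE f e hf he hfe β c hc

lemma variance_incLaw {m : ℕ} (hE : Module.finrank ℝ E = m + 2) (f e : E) (hf : ‖f‖ = 1)
    (he : ‖e‖ = 1) (hfe : ⟪f, e⟫ = 0) (β c : ℝ) (hc : 0 < c) :
    Var[id; incLaw f e β c] ≠ 0 := by
  intro h
  have hfin : IsProbabilityMeasure (incLaw f e β c) :=
    Measure.isProbabilityMeasure_map (by fun_prop)
  have h1 := ae_eq_integral_of_variance_eq_zero (memLp_incLaw hE f e hf he hfe β c hc) h
  set k := ∫ x, id x ∂(incLaw f e β c) with hk
  unfold incLaw at h1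
  have h2 := ae_of_ae_map (by fun_prop) h1
  have h3 : ∀ᵐ z ∂(stdGaussian E), |β + c * ⟪e, z⟫| ≤ Real.exp k := by
    filter_upwards [h2, ae_lin_ne_zero e he β c hc] with z hz hz2
    have h4 := abs_le_norm f e he hfe β c z
    have h5 : 0 < ‖β • e + c • pr f z‖ := (abs_pos.2 hz2).trans_le h4
    have h6 : Real.log ‖β • e + c • pr f z‖ = k := hz
    rw [← h6, Real.exp_log h5]
    exact h4
  have h4 : ∀ᵐ u ∂(gaussianReal 0 1), |β + c * u| ≤ Real.exp k := by
    rw [← stdGaussian_map_inner e he]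
    rw [ae_map_iff (by fun_prop) (measurableSet_le (by fun_prop) measurable_const)]
    exact h3
  have h5 : ∀ᵐ u ∂(volume : Measure ℝ), |β + c * u| ≤ Real.exp k :=
    (gaussianReal_absolutelyContinuous' 0 (by norm_num : (1:ℝ≥0) ≠ 0)).ae_le h4
  have h6 : {u : ℝ | ¬ |β + c * u| ≤ Real.exp k}.Nonempty := by
    refine ⟨(Real.exp k + 1 - β) / c, ?_⟩
    simp only [Set.mem_ofPred_eq, not_le]
    rw [mul_div_cancel₀ _ hc.ne']
    refine lt_of_lt_of_le ?_ (le_abs_self _)
    linarith
  have h7 : IsOpen {u : ℝ | ¬ |β + c * u| ≤ Real.exp k} := by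
    simp only [not_le]
    exact isOpen_lt continuous_const (by fun_prop)
  exact (h7.measure_pos volume h6).ne' (ae_iff.1 h5)

lemma integral_incLaw {m : ℕ} (hE : Module.finrank ℝ E = m + 2) (f e : E) (hf : ‖f‖ = 1)
    (he : ‖e‖ = 1) (hfe : ⟪f, e⟫ = 0) (β c : ℝ) (hc : 0 < c) :
    ∫ u, u ∂(incLaw f e β c) =
      1/2 * (phi ((m + 1 : ℝ) / 2) ((β / c)^2 / 2) + Real.log (2 * c^2)) := by
  have ha : (0:ℝ) < (m + 1 : ℝ) / 2 := by positivity
  set a : ℝ := (m + 1 : ℝ) / 2 with hadef
  set x : ℝ := (β / c)^2 / 2 with hxdef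
  have hx : 0 ≤ x := by positivity
  have hL2 := memLp_log hE f e hf he hfe β c hc
  have hL1 : Integrable (fun z => Real.log ‖β • e + c • pr f z‖) (stdGaussian E) :=
    hL2.integrable (by norm_num)
  have hrel : ∀ᵐ z ∂(stdGaussian E), Real.log (‖(β / c) • e + pr f z‖^2) =
      2 * Real.log ‖β • e + c • pr f z‖ - Real.log (c^2) := by
    filter_upwards [ae_ne_zero (β := β) f e he hfe hc] with z hz
    have h1 : ‖β • e + c • pr f z‖ ≠ 0 := by simpa using hz
    rw [norm_scale f e β c hc z] at h1 ⊢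
    have h2 : ‖(β / c) • e + pr f z‖ ≠ 0 := right_ne_zero_of_mul h1
    rw [Real.log_mul hc.ne' h2, Real.log_pow, Real.log_pow]
    push_cast
    ring
  have hint2 : Integrable (fun z => Real.log (‖(β / c) • e + pr f z‖^2)) (stdGaussian E) := by
    refine ((hL1.const_mul 2).sub (integrable_const (Real.log (c^2)))).congr ?_
    filter_upwards [hrel] with z hz
    simp [hz]
  have hlaw := map_norm_sq_eq_mix hE f e hf he hfe (β / c)
  have hmm : Measurable (fun z : E => ‖(β / c) • e + pr f z‖^2) := by fun_prop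
  have hmixint : Integrable Real.log (mix a x) := by
    rw [hadef, hxdef, ← hlaw, integrable_map_measure (by fun_prop) hmm.aemeasurable]
    exact hint2
  have hval : ∫ y, Real.log y ∂(mix a x) = 2 * ∫ z, Real.log ‖β • e + c • pr f z‖ ∂(stdGaussian E)
      - Real.log (c^2) := by
    rw [hadef, hxdef, ← hlaw, integral_map hmm.aemeasurable (by fun_prop)]
    rw [integral_congr_ae hrel, integral_sub (hL1.const_mul 2) (integrable_const _),
      integral_const_mul]
    simp
  have hsum := hasSum_integral_measure (μ := fun j : ℕ => ENNReal.ofReal (pw x j) •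
    gammaMeasure (a + j) (1/2)) hmixint
  have hterm : ∀ j : ℕ, ∫ y, Real.log y ∂(ENNReal.ofReal (pw x j) • gammaMeasure (a + j) (1/2)) =
      pw x j * psi (j + a) + pw x j * Real.log 2 := by
    intro j
    rw [integral_smul_measure, integral_log_gammaMeasure (by positivity),
      ENNReal.toReal_ofReal (pw_nonneg hx j), smul_eq_mul, add_comm a (j:ℝ)]
    ring
  simp_rw [hterm] at hsum
  have hpw : HasSum (fun j => pw x j * Real.log 2) (Real.log 2) := by
    have h1 := (hasSum_pw_mul_pow x 1).mul_right (Real.log 2)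
    simp only [one_pow, mul_one] at h1
    rw [← Real.exp_add] at h1
    simpa using h1
  have h2 := hsum.sub hpw
  simp only [add_sub_cancel_right] at h2
  have h3 : phi a x = ∫ y, Real.log y ∂(mix a x) - Real.log 2 := by
    have e1 : ∫ y, Real.log y ∂(mix a x) - Real.log 2 = ∑' j, pw x j * psi (j + a) := by
      rw [h2.tsum_eq]; rfl
    rw [e1]
    unfold phi
    rw [← tsum_mul_left]
    apply tsum_congr
    intro j
    unfold pw
    ring
  rw [h3, hval]
  unfold incLaw
  rw [integral_map (by fun_prop) (by fun_prop), Real.log_mul (by norm_num) (by positivity)]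
  ring

end Pool.Agent.Lib.MP_21b2a2_pr
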