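import Mathlib

open MeasureTheory ProbabilityTheory Filter Finset
open scoped Topology ENNReal NNReal

namespace Pool.Agent.Lib.MP_21b2a2_pr

variable {Ω : Type*} {mΩ : MeasurableSpace Ω} {P : Measure Ω}

/-- successive independence implies mutual independence -/
lemma iIndepFun_of_indepFun_past {β : Type*} [MeasurableSpace β] [IsProbabilityMeasure P]
    {ξ : ℕ → Ω → β}
    (h : ∀ n, IndepFun (fun ω (s : Fin n) => ξ s ω) (ξ n) P) : iIndepFun ξ P := by
  rw [iIndepFun_iff_measure_inter_preimage_eq_mul]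
  intro S
  induction S using Finset.induction_on_max with
  | empty => intro sets _; simp
  | insert a s has ih =>
    intro sets hsets
    have hnot : a ∉ s := fun h => lt_irrefl _ (has a h)
    rw [Finset.prod_insert hnot, Finset.set_biInter_insert, Set.inter_comm]
    have h1 := ih (sets := sets) (fun i hi => hsets i (Finset.mem_insert_of_mem hi))
    rw [← h1]
    have h2 := h a
    rw [indepFun_iff_measure_inter_preimage_eq_mul] at h2
    let T : Set (Fin a → β) := ⋂ i : Fin a, if (i : ℕ) ∈ s then (fun f => f i) ⁻¹' (sets i) else Set.univ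
    have hT : MeasurableSet T := by
      apply MeasurableSet.iInter
      intro i
      split_ifs with hi
      · exact (measurable_pi_apply i) (hsets i (Finset.mem_insert_of_mem hi))
      · exact MeasurableSet.univ
    have key := h2 T (sets a) hT (hsets a (Finset.mem_insert_self _ _))
    have hTeq : (fun ω (s : Fin a) => ξ s ω) ⁻¹' T = ⋂ i ∈ s, ξ i ⁻¹' sets i := by
      ext ω
      simp only [T, Set.mem_preimage, Set.mem_iInter]
      constructor
      · intro H i hi
        have := H ⟨i, has i hi⟩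
        simpa [hi] using this
      · intro H i
        split_ifs with hi
        · exact H i hi
        · trivial
    rw [hTeq] at key
    rw [key, mul_comm]

/-- positive probability of large sums, from the central limit theorem -/
lemma exists_prob_sum_ge [IsProbabilityMeasure P] {ξ : ℕ → Ω → ℝ}
    (hind : iIndepFun ξ P) (hid : ∀ n, IdentDistrib (ξ n) (ξ 0) P P)
    (h2 : MemLp (ξ 0) 2 P) (hmean : 0 ≤ ∫ ω, ξ 0 ω ∂P) (hvar : Var[ξ 0; P] ≠ 0) :
    ∃ p : ℝ≥0∞, 0 < p ∧ ∃ n0 : ℕ, ∀ n ≥ n0,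
      p ≤ P {ω | Real.sqrt n ≤ ∑ k ∈ range n, ξ k ω} := by
  have hvar' : 0 < Var[ξ 0; P] := lt_of_le_of_ne (variance_nonneg _ _) (Ne.symm hvar)
  set v : ℝ≥0 := Var[ξ 0; P].toNNReal with hv
  have hv0 : v ≠ 0 := by
    rw [hv]; simpa using hvar'
  have hclt := tendstoInDistribution_inv_sqrt_mul_sum_sub (P := P) (X := ξ)
    (Y := (id : ℝ → ℝ)) (P' := gaussianReal 0 v) (HasLaw.id) h2 hind hid
  have hopen : IsOpen (Set.Ioi (1:ℝ)) := isOpen_Ioi
  have hl := ProbabilityMeasure.le_liminf_measure_open_of_tendsto hclt.tendsto hopen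
  simp only [ProbabilityMeasure.coe_mk, Measure.map_id] at hl
  have hpos : 0 < gaussianReal 0 v (Set.Ioi (1:ℝ)) := by
    have := (gaussianReal_absolutelyContinuous' 0 hv0)
    by_contra hcon
    have h0 : gaussianReal 0 v (Set.Ioi (1:ℝ)) = 0 := by simpa using hcon
    have := this h0
    simp at this
  obtain ⟨p, hp0, hp⟩ := exists_between hpos
  refine ⟨p, hp0, ?_⟩
  have hev := eventually_lt_of_lt_liminf (lt_of_lt_of_le hp hl)
  rw [eventually_atTop] at hev
  obtain ⟨n0, hn0⟩ := hev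
  refine ⟨max n0 1, fun n hn => ?_⟩
  have hn1 : 1 ≤ n := le_trans (le_max_right _ _) hn
  have := hn0 n (le_trans (le_max_left _ _) hn)
  rw [Measure.map_apply_of_aemeasurable (hclt.forall_aemeasurable n) measurableSet_Ioi] at this
  refine this.le.trans (measure_mono ?_)
  intro ω hω
  simp only [Set.mem_preimage, Set.mem_Ioi, Set.mem_ofPred_eq] at hω ⊢
  have hsq : 0 < Real.sqrt n := Real.sqrt_pos.2 (by exact_mod_cast hn1)
  rw [inv_mul_eq_div, lt_div_iff₀ hsq, one_mul] at hω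
  have : 0 ≤ (n:ℝ) * ∫ ω, ξ 0 ω ∂P := by positivity
  linarith

/-- block sums have a law depending only on the length of the block -/
lemma measure_block_eq [IsProbabilityMeasure P] {ξ : ℕ → Ω → ℝ}
    (hind : iIndepFun ξ P) (hid : ∀ n, IdentDistrib (ξ n) (ξ 0) P P) (a l : ℕ) (x : ℝ) :
    P {ω | x ≤ ∑ k ∈ Ico a (a + l), ξ k ω} = P {ω | x ≤ ∑ k ∈ range l, ξ k ω} := by
  have hmap : ∀ b : ℕ, P.map (fun ω (i : Fin l) => ξ (b + i) ω)
      = Measure.pi (fun _ : Fin l => P.map (ξ 0)) := by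
    intro b
    have hinj : Function.Injective (fun i : Fin l => b + (i : ℕ)) := by
      intro i j hij
      simpa [Fin.ext_iff] using hij
    have h1 := (hind.precomp hinj)
    have h2 := h1.map_fun_eq_pi_map (fun i => (hid _).aemeasurable_fst)
    rw [h2]
    congr 1
    funext i
    exact (hid _).map_eq
  have hset : MeasurableSet {f : Fin l → ℝ | x ≤ ∑ i, f i} :=
    measurableSet_le measurable_const (Finset.measurable_sum _ (fun i _ => measurable_pi_apply i))
  have key : ∀ b : ℕ, P {ω | x ≤ ∑ i : Fin l, ξ (b + i) ω}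
      = Measure.pi (fun _ : Fin l => P.map (ξ 0)) {f : Fin l → ℝ | x ≤ ∑ i, f i} := by
    intro b
    rw [← hmap b, Measure.map_apply_of_aemeasurable _ hset]
    · rfl
    · exact aemeasurable_pi_lambda _ (fun i => (hid _).aemeasurable_fst)
  have ha := key a
  have h0 := key 0
  have e1 : ∀ ω, ∑ k ∈ Ico a (a + l), ξ k ω = ∑ i : Fin l, ξ (a + i) ω := by
    intro ω
    rw [Finset.sum_Ico_eq_sum_range, Nat.add_sub_cancel_left, Finset.sum_range]
  have e0 : ∀ ω, ∑ k ∈ range l, ξ k ω = ∑ i : Fin l, ξ (0 + i) ω := by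
    intro ω
    rw [Finset.sum_range]
    simp
  simp_rw [e1, e0]
  rw [ha, h0]

/-- Chebyshev lower bound for the sums, almost surely along a sequence. -/
lemma ae_eventually_sum_ge [IsProbabilityMeasure P] {ξ : ℕ → Ω → ℝ}
    (hind : iIndepFun ξ P) (hid : ∀ n, IdentDistrib (ξ n) (ξ 0) P P)
    (h2 : MemLp (ξ 0) 2 P) (hmean : 0 ≤ ∫ ω, ξ 0 ω ∂P) (n : ℕ → ℕ) (hn : ∀ k, 0 < n k) :
    ∀ᵐ ω ∂P, ∀ᶠ k : ℕ in atTop, -((k:ℝ) * Real.sqrt (n k)) ≤ ∑ i ∈ range (n k), ξ i ω := by
  have hmem : ∀ i, MemLp (ξ i) 2 P := fun i => ((hid i).memLp_iff).2 h2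
  have hint : ∀ i, Integrable (ξ i) P := fun i => (hmem i).integrable (by norm_num)
  set v := Var[ξ 0; P] with hv
  have hvn : 0 ≤ v := variance_nonneg _ _
  -- the bad events
  have hbad : ∀ k : ℕ, 1 ≤ k →
      P {ω | ¬ (-((k:ℝ) * Real.sqrt (n k)) ≤ ∑ i ∈ range (n k), ξ i ω)} ≤
        ENNReal.ofReal (v / (k:ℝ)^2) := by
    intro k hk
    have hk' : (0:ℝ) < k := by exact_mod_cast hk
    have hsn : 0 < Real.sqrt (n k) := Real.sqrt_pos.2 (by exact_mod_cast hn k)
    have hmS : MemLp (fun ω => ∑ i ∈ range (n k), ξ i ω) 2 P :=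
      memLp_finsetSum _ (fun i _ => hmem i)
    have hE : ∫ ω, ∑ i ∈ range (n k), ξ i ω ∂P = (n k : ℝ) * ∫ ω, ξ 0 ω ∂P := by
      rw [integral_finsetSum _ (fun i _ => hint i)]
      simp [fun i => (hid i).integral_eq]
    have hV : Var[fun ω => ∑ i ∈ range (n k), ξ i ω; P] = (n k : ℝ) * v := by
      have := IndepFun.variance_sum (μ := P) (X := ξ) (s := range (n k)) (fun i _ => hmem i)
        (fun i _ j _ hij => hind.indepFun hij)
      have e : (fun ω => ∑ i ∈ range (n k), ξ i ω) = ∑ i ∈ range (n k), ξ i := by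
        ext ω; simp
      rw [e, this]
      simp [fun i => (hid i).variance_eq, hv]
    have hc : 0 < (k:ℝ) * Real.sqrt (n k) := by positivity
    have := meas_ge_le_variance_div_sq hmS hc
    rw [hV] at this
    refine (measure_mono ?_).trans (this.trans (le_of_eq ?_))
    · intro ω hω
      simp only [Set.mem_ofPred_eq, not_le] at hω ⊢
      rw [hE]
      have h3 : 0 ≤ (n k : ℝ) * ∫ ω, ξ 0 ω ∂P := by positivity
      rw [abs_of_neg (by linarith)]
      linarith
    · congr 1
      rw [mul_pow, Real.sq_sqrt (by positivity)]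
      have : (n k : ℝ) ≠ 0 := by
        have := hn k
        positivity
      field_simp
  have hsum : ∑' k : ℕ, P {ω | ¬ (-((k:ℝ) * Real.sqrt (n k)) ≤ ∑ i ∈ range (n k), ξ i ω)} ≠ ∞ := by
    have hs : Summable (fun k : ℕ => v / (k:ℝ)^2) :=
      ((Real.summable_one_div_nat_pow (p := 2)).2 (by norm_num)).mul_left v |>.congr
        (fun k => by ring)
    have h1 : ∑' k : ℕ, ENNReal.ofReal (v / (k:ℝ)^2) ≠ ∞ := by
      rw [← ENNReal.ofReal_tsum_of_nonneg (fun k => by positivity) hs]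
      exact ENNReal.ofReal_ne_top
    refine ne_top_of_le_ne_top (b := 1 + ∑' k : ℕ, ENNReal.ofReal (v / (k:ℝ)^2)) (by simp [h1]) ?_
    rw [tsum_eq_zero_add' ENNReal.summable]
    refine add_le_add prob_le_one ?_
    · calc ∑' (b : ℕ), P {ω | ¬ (-(((b+1 : ℕ):ℝ) * Real.sqrt (n (b+1))) ≤ ∑ i ∈ range (n (b+1)), ξ i ω)}
          ≤ ∑' (b : ℕ), ENNReal.ofReal (v / ((b+1 : ℕ):ℝ)^2) :=
            ENNReal.tsum_le_tsum (fun b => hbad (b+1) (by omega))
        _ ≤ _ := ENNReal.tsum_comp_le_tsum_of_injective (Nat.succ_injective) _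
  have := ae_eventually_notMem hsum
  filter_upwards [this] with ω hω
  filter_upwards [hω] with k hk
  simpa using hk

lemma pow_bound (K : ℕ) (hK : 3 ≤ K) : 24 * ((K:ℝ) + 1)^2 ≤ 2 ^ (K^2) := by
  have h1 : ∀ K : ℕ, 3 ≤ K → 24 * (K + 1)^2 ≤ 8 ^ K := by
    intro K hK
    induction K, hK using Nat.le_induction with
    | base => norm_num
    | succ n hn ih =>
      rw [pow_succ]
      have : 24 * (n + 1 + 1)^2 ≤ 24 * (n+1)^2 * 8 := by nlinarith
      exact this.trans (Nat.mul_le_mul_right 8 ih)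
  have h2 : 8 ^ K ≤ 2 ^ (K^2) := by
    calc 8 ^ K = 2 ^ (3 * K) := by rw [pow_mul]; norm_num
      _ ≤ 2 ^ (K^2) := Nat.pow_le_pow_right (by norm_num) (by nlinarith)
  have := (h1 K hK).trans h2
  exact_mod_cast this

lemma block_bound (k : ℕ) : ((k:ℝ) + 1) * Real.sqrt ((4 ^ (k^2) : ℕ) : ℝ) ≤
    Real.sqrt ((4 ^ ((k+1)^2) - 4 ^ (k^2) : ℕ) : ℝ) := by
  have h0 : ((k:ℝ) + 1) = Real.sqrt (((k:ℝ)+1)^2) := by
    rw [Real.sqrt_sq (by positivity)]
  rw [h0, ← Real.sqrt_mul (by positivity)]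
  apply Real.sqrt_le_sqrt
  have h1 : ∀ k : ℕ, (k+1)^2 + 1 ≤ 4 ^ (2 * k + 1) := by
    intro k
    induction k with
    | zero => norm_num
    | succ n ih =>
      have : 4 ^ (2 * (n+1) + 1) = 16 * 4 ^ (2 * n + 1) := by
        rw [show 2 * (n+1) + 1 = (2 * n + 1) + 2 by ring, pow_add]; ring
      rw [this]
      nlinarith
  have h2 : (k+1)^2 * 4 ^ (k^2) + 4 ^ (k^2) ≤ 4 ^ ((k+1)^2) := by
    have : 4 ^ ((k+1)^2) = 4 ^ (2 * k + 1) * 4 ^ (k^2) := by
      rw [← pow_add]; ring_nf
    rw [this]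
    have := Nat.mul_le_mul_right (4 ^ (k^2)) (h1 k)
    linarith
  have h3 : (k+1)^2 * 4 ^ (k^2) ≤ 4 ^ ((k+1)^2) - 4 ^ (k^2) := by omega
  exact_mod_cast h3

/-- The running maximum of a mean-nonnegative nondegenerate random walk dominates `4 log t`. -/
theorem ae_eventually_exists_log_le [IsProbabilityMeasure P] {ξ : ℕ → Ω → ℝ}
    (hm : ∀ n, Measurable (ξ n))
    (hind : iIndepFun ξ P) (hid : ∀ n, IdentDistrib (ξ n) (ξ 0) P P)
    (h2 : MemLp (ξ 0) 2 P) (hmean : 0 ≤ ∫ ω, ξ 0 ω ∂P) (hvar : Var[ξ 0; P] ≠ 0) :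
    ∀ᵐ ω ∂P, ∀ᶠ t : ℕ in atTop, ∃ s < t, 4 * Real.log t ≤ ∑ k ∈ range s, ξ k ω := by
  obtain ⟨p, hp0, n0, hn0⟩ := exists_prob_sum_ge hind hid h2 hmean hvar
  set n : ℕ → ℕ := fun k => 4 ^ (k^2) with hndef
  have hnpos : ∀ k, 0 < n k := fun k => by simp [hndef]
  have hnmono : StrictMono n := by
    intro a b hab
    exact Nat.pow_lt_pow_right (by norm_num) (Nat.pow_lt_pow_left hab (by norm_num))
  have hA := ae_eventually_sum_ge hind hid h2 hmean n hnpos
  -- block events
  set l : ℕ → ℕ := fun k => n (k+1) - n k with hl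
  have hnl : ∀ k, n k + l k = n (k+1) := fun k => by
    have := (hnmono (Nat.lt_succ_self k)).le
    simp only [hl]; simp only [Nat.succ_eq_add_one] at this; omega
  have hlk : ∀ k, n k ≤ l k := by
    intro k
    have h1 : 2 * n k ≤ n (k+1) := by
      simp only [hndef]
      calc 2 * 4 ^ (k^2) ≤ 4 * 4 ^ (k^2) := by omega
        _ = 4 ^ (k^2 + 1) := by ring
        _ ≤ 4 ^ ((k+1)^2) := Nat.pow_le_pow_right (by norm_num) (by ring_nf; omega)
    simp only [hl]; omega
  have hkn : ∀ k, k ≤ n k := fun k => hnmono.le_apply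
  let D : ℕ → Ω → ℝ := fun k ω => ∑ i ∈ Ico (n k) (n (k+1)), ξ i ω
  have hDp : ∀ k, n0 ≤ k → p ≤ P {ω | Real.sqrt (l k) ≤ D k ω} := by
    intro k hk
    have h1 := hn0 (l k) (hk.trans ((hkn k).trans (hlk k)))
    rw [← measure_block_eq hind hid (n k) (l k)] at h1
    rw [hnl k] at h1
    exact h1
  have hDm : ∀ k, Measurable (D k) := fun k => Finset.measurable_sum _ (fun i _ => hm i)
  have hDind : iIndepFun D P := by
    apply iIndepFun_of_indepFun_past
    intro k
    have h := hind.indepFun_finset (range (n k)) (Ico (n k) (n (k+1)))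
      (by
        rw [Finset.disjoint_left]
        intro x hx hx'
        rw [Finset.mem_range] at hx
        rw [Finset.mem_Ico] at hx'
        omega) hm
    have h' := h.comp (φ := fun (f : range (n k) → ℝ) (s : Fin k) =>
        ∑ i : (Ico (n s) (n (s+1))), f ⟨i, by
          have h1 := Finset.mem_Ico.1 i.2
          have h2 : n (s + 1) ≤ n k := hnmono.monotone (by omega)
          exact Finset.mem_range.2 (by omega)⟩)
      (ψ := fun (f : Ico (n k) (n (k+1)) → ℝ) => ∑ i, f i)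
      (measurable_pi_lambda _ (fun s => Finset.measurable_sum _ (fun i _ => measurable_pi_apply _)))
      (Finset.measurable_sum _ (fun i _ => measurable_pi_apply _))
    convert h' using 1
    · funext ω s
      simp only [D, Function.comp]
      rw [← Finset.sum_coe_sort]
    · funext ω
      simp only [D, Function.comp]
      rw [← Finset.sum_coe_sort]
  have hB : ∀ᵐ ω ∂P, ∀ᶠ K : ℕ in atTop, ∃ j < K, Real.sqrt (l (K + j)) ≤ D (K + j) ω := by
    have hle : ∀ K, n0 ≤ K → P {ω | ¬ ∃ j < K, Real.sqrt (l (K + j)) ≤ D (K + j) ω} ≤ (1 - p)^K := by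
      intro K hK
      have hI2 := hDind.measure_inter_preimage_eq_mul (Finset.Ico K (K + K))
        (sets := fun k => Set.Iio (Real.sqrt (l k))) (fun _ _ => measurableSet_Iio)
      have hset : {ω | ¬ ∃ j < K, Real.sqrt (l (K + j)) ≤ D (K + j) ω} =
          ⋂ k ∈ Finset.Ico K (K + K), D k ⁻¹' Set.Iio (Real.sqrt (l k)) := by
        ext ω
        simp only [Set.mem_ofPred_eq, not_exists, not_and, not_le, Finset.mem_Ico,
          Set.mem_iInter, Set.mem_preimage, Set.mem_Iio]
        constructor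
        · intro H k hk
          obtain ⟨j, rfl⟩ := Nat.exists_eq_add_of_le hk.1
          exact H j (by omega)
        · intro H j hj
          exact H (K + j) (by omega)
      rw [hset, hI2]
      calc ∏ k ∈ Finset.Ico K (K + K), P (D k ⁻¹' Set.Iio (Real.sqrt (l k)))
          ≤ ∏ k ∈ Finset.Ico K (K + K), (1 - p) := by
            apply Finset.prod_le_prod'
            intro k hk
            rw [Finset.mem_Ico] at hk
            have hc : D k ⁻¹' Set.Iio (Real.sqrt (l k)) = {ω | Real.sqrt (l k) ≤ D k ω}ᶜ := by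
              ext ω
              simp only [Set.mem_preimage, Set.mem_Iio, Set.mem_compl_iff, Set.mem_ofPred_eq, not_le]
            rw [hc]
            have hmeas : MeasurableSet {ω | Real.sqrt (l k) ≤ D k ω} :=
              measurableSet_le measurable_const (hDm k)
            rw [prob_compl_eq_one_sub hmeas]
            exact tsub_le_tsub_left (hDp k (by omega)) 1
        _ = (1 - p)^K := by simp
    have hsum : ∑' K : ℕ, P {ω | ¬ ∃ j < K, Real.sqrt (l (K + j)) ≤ D (K + j) ω} ≠ ∞ := by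
      have hgeo : ∑' K : ℕ, (1 - p)^K ≠ ∞ := by
        rw [ENNReal.tsum_geometric]
        rw [ENNReal.inv_ne_top]
        have : 1 - p < 1 := ENNReal.sub_lt_self (by norm_num) (by norm_num) hp0.ne'
        exact (tsub_pos_of_lt this).ne'
      refine ne_top_of_le_ne_top (b := (n0 : ℝ≥0∞) + ∑' K : ℕ, (1 - p)^K)
        (ENNReal.add_ne_top.2 ⟨ENNReal.natCast_ne_top n0, hgeo⟩) ?_
      rw [← ENNReal.summable.sum_add_tsum_nat_add' (k := n0)]
      refine add_le_add ?_ ?_
      · calc ∑ i ∈ range n0, P {ω | ¬ ∃ j < i, Real.sqrt (l (i + j)) ≤ D (i + j) ω}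
            ≤ ∑ i ∈ range n0, 1 := Finset.sum_le_sum (fun i _ => prob_le_one)
          _ = (n0 : ℝ≥0∞) := by simp
      · calc ∑' i : ℕ, P {ω | ¬ ∃ j < i + n0, Real.sqrt (l (i + n0 + j)) ≤ D (i + n0 + j) ω}
            ≤ ∑' i : ℕ, (1 - p)^(i + n0) := ENNReal.tsum_le_tsum (fun i => hle (i + n0) (by omega))
          _ ≤ _ := ENNReal.tsum_comp_le_tsum_of_injective (add_left_injective n0) _
    have := ae_eventually_notMem hsum
    filter_upwards [this] with ω hω
    filter_upwards [hω] with K hK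
    simpa using hK
  filter_upwards [hA, hB] with ω h1 h2
  rw [eventually_atTop] at h1 h2 ⊢
  obtain ⟨k1, hk1⟩ := h1
  obtain ⟨k2, hk2⟩ := h2
  set K1 := max 3 (max k1 k2) with hK1
  refine ⟨n (2 * K1) + 1, fun t ht => ?_⟩
  have hex : ∃ m, t ≤ n (2 * m) := ⟨t, (hkn t).trans (hnmono.monotone (by omega))⟩
  classical
  set m := Nat.find hex with hmdef
  have hmt : t ≤ n (2 * m) := Nat.find_spec hex
  have hmK : K1 < m := by
    by_contra hcon
    have : n (2 * m) ≤ n (2 * K1) := hnmono.monotone (by omega)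
    omega
  have hmin : n (2 * (m - 1)) < t := by
    have := Nat.find_min hex (m := m - 1) (by omega)
    omega
  obtain ⟨K, hKm⟩ : ∃ K, m = K + 1 := ⟨m - 1, by omega⟩
  rw [hKm] at hmt hmK
  rw [hKm, Nat.add_sub_cancel] at hmin
  have hKK1 : K1 ≤ K := by omega
  have hK3 : 3 ≤ K := (le_max_left _ _).trans hKK1
  have hKk1 : k1 ≤ K := (le_max_left _ _).trans ((le_max_right _ _).trans hKK1)
  have hKk2 : k2 ≤ K := (le_max_right _ _).trans ((le_max_right _ _).trans hKK1)
  obtain ⟨j, hj, hj2⟩ := hk2 K hKk2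
  have hlow := hk1 (K + j) (by omega)
  refine ⟨n (K + j + 1), ?_, ?_⟩
  · have : n (K + j + 1) ≤ n (2 * K) := hnmono.monotone (by omega)
    omega
  have hsplit : ∑ i ∈ range (n (K + j + 1)), ξ i ω
      = ∑ i ∈ range (n (K + j)), ξ i ω + D (K + j) ω := by
    simp only [D]
    rw [Finset.sum_range_add_sum_Ico _ (hnmono.monotone (by omega))]
  rw [hsplit]
  have hbb := block_bound (K + j)
  have hbb' : (((K + j : ℕ):ℝ) + 1) * Real.sqrt (n (K + j)) ≤ Real.sqrt (l (K + j)) := by
    simpa only [hndef, hl] using hbb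
  have hsq : (2:ℝ) ^ (K^2) ≤ Real.sqrt (n (K + j)) := by
    have h1 : (2:ℝ) ^ (K^2) = Real.sqrt ((4 ^ (K^2) : ℕ) : ℝ) := by
      rw [show ((4 ^ (K^2) : ℕ) : ℝ) = ((2:ℝ) ^ (K^2))^2 by
        push_cast
        rw [← pow_mul, mul_comm, pow_mul]; norm_num]
      rw [Real.sqrt_sq (by positivity)]
    rw [h1]
    apply Real.sqrt_le_sqrt
    have : n K ≤ n (K + j) := hnmono.monotone (by omega)
    exact_mod_cast this
  have hlog : 4 * Real.log t ≤ 24 * ((K:ℝ) + 1)^2 := by
    have ht0 : (0:ℝ) < t := by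
      have : 0 < t := by omega
      exact_mod_cast this
    have h1 : Real.log t ≤ Real.log ((n (2 * (K+1)) : ℕ) : ℝ) :=
      Real.log_le_log ht0 (by exact_mod_cast hmt)
    have h2 : Real.log ((n (2 * (K+1)) : ℕ) : ℝ) = 4 * ((K:ℝ)+1)^2 * Real.log 4 := by
      simp only [hndef]
      push_cast
      rw [Real.log_pow]
      push_cast
      ring
    have h3 : Real.log 4 ≤ 3/2 := by
      rw [show (4:ℝ) = 2^2 by norm_num, Real.log_pow]
      have := Real.log_two_lt_d9
      push_cast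
      linarith
    rw [h2] at h1
    nlinarith [sq_nonneg ((K:ℝ)+1)]
  have hpb := pow_bound K hK3
  have hcast : (0:ℝ) ≤ ((K + j : ℕ) : ℝ) := by positivity
  nlinarith [Real.sqrt_nonneg (n (K + j) : ℝ)]

end Pool.Agent.Lib.MP_21b2a2_pr
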