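import Pool.Agent.Lib.MP_21b2a2_pr.Mean

open MeasureTheory ProbabilityTheory Filter Finset
open scoped Topology ENNReal NNReal RealInnerProductSpace Matrix

namespace Pool.Agent.Lib.MP_21b2a2_pr

/-- the constant unit vector -/
noncomputable def cst (N : ℕ) : EuclideanSpace ℝ (Fin N) := WithLp.toLp 2 (fun _ => 1 / √(N : ℝ))

lemma norm_cst {N : ℕ} (hN : 0 < N) : ‖cst N‖ = 1 := by
  have h : (0:ℝ) < N := by exact_mod_cast hN
  rw [EuclideanSpace.norm_eq]
  simp only [cst, Real.norm_eq_abs, sq_abs, Finset.sum_const, Finset.card_univ, Fintype.card_fin,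
    nsmul_eq_mul, div_pow, one_pow, Real.sq_sqrt h.le]
  rw [mul_one_div_cancel h.ne']
  simp

lemma inner_cst {N : ℕ} (y : EuclideanSpace ℝ (Fin N)) :
    ⟪cst N, y⟫ = (∑ i, y i) / √(N : ℝ) := by
  simp only [cst, PiLp.inner_apply, Finset.sum_div]
  apply Finset.sum_congr rfl
  intro i _
  simp
  ring

lemma inner_cst_smul {N : ℕ} (hN : 0 < N) (y : EuclideanSpace ℝ (Fin N)) (i : Fin N) :
    (⟪cst N, y⟫ • cst N) i = (1 / (N:ℝ)) * ∑ k, y k := by
  have h : (0:ℝ) < N := by exact_mod_cast hN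
  rw [inner_cst]
  simp only [PiLp.smul_apply, cst, smul_eq_mul]
  have h2 := Real.mul_self_sqrt h.le
  have h3 : √(N:ℝ) ≠ 0 := by positivity
  field_simp
  rw [sq, h2]

lemma pr_cst_apply {N : ℕ} (hN : 0 < N) (y : EuclideanSpace ℝ (Fin N)) (i : Fin N) :
    (pr (cst N) y) i = y i - (1 / (N:ℝ)) * ∑ k, y k := by
  rw [pr, PiLp.sub_apply, inner_cst_smul hN]

lemma norm_pr_cst_sq {N : ℕ} (hN : 0 < N) (y : EuclideanSpace ℝ (Fin N)) :
    ‖pr (cst N) y‖^2 = ∑ i, (y i - (1 / (N:ℝ)) * ∑ k, y k)^2 := by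
  rw [EuclideanSpace.norm_eq, Real.sq_sqrt (by positivity)]
  apply Finset.sum_congr rfl
  intro i _
  rw [pr_cst_apply hN, Real.norm_eq_abs, sq_abs]

lemma exists_unit_orthogonal {m : ℕ} {E : Type*} [NormedAddCommGroup E] [InnerProductSpace ℝ E]
    [FiniteDimensional ℝ E] (hE : Module.finrank ℝ E = m + 2) (f : E) (hf : ‖f‖ = 1) :
    ∃ e : E, ‖e‖ = 1 ∧ ⟪f, e⟫ = 0 := by
  have hv : Orthonormal ℝ (({0} : Set (Fin (m + 2))).domRestrict (fun _ : Fin (m + 2) => f)) := by
    constructor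
    · rintro ⟨i, hi⟩
      simpa using hf
    · rintro ⟨i, hi⟩ ⟨j, hj⟩ hij
      simp only [Set.mem_singleton_iff] at hi hj
      subst hi; subst hj
      exact absurd rfl hij
  obtain ⟨B, hB⟩ := hv.exists_orthonormalBasis_extension_of_card_eq (by simpa using hE)
  refine ⟨B 1, B.orthonormal.1 1, ?_⟩
  have h0 : B 0 = f := hB 0 (by simp)
  rw [← h0]
  exact B.orthonormal.2 (by simp)

/-- the law of one step of the scalar chain -/
lemma map_stepMap_cst {N : ℕ} (hN : 0 < N) (β c : ℝ) (y : EuclideanSpace ℝ (Fin N)) :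
    (stdGaussian (EuclideanSpace ℝ (Fin N))).map (stepMap (cst N) β c y) =
      (Measure.pi (fun i => gaussianReal (β * y i + (1 - β) * ((1 / (N:ℝ)) * ∑ k, y k))
        ⟨(c * ‖pr (cst N) y‖)^2, sq_nonneg _⟩)).map (WithLp.toLp 2) := by
  rw [← map_pi_eq_stdGaussian, Measure.map_map (by fun_prop) (by fun_prop)]
  set σ := c * ‖pr (cst N) y‖ with hσ
  have h1 : ∀ i, gaussianReal (β * y i + (1 - β) * ((1 / (N:ℝ)) * ∑ k, y k))
      ⟨σ^2, sq_nonneg _⟩ = (gaussianReal 0 1).map
        (fun z => (β * y i + (1 - β) * ((1 / (N:ℝ)) * ∑ k, y k)) + σ * z) := by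
    intro i
    have h2 := gaussianReal_map_const_mul (μ := 0) (v := 1) σ
    have h3 : (gaussianReal 0 1).map
        (fun z => (β * y i + (1 - β) * ((1 / (N:ℝ)) * ∑ k, y k)) + σ * z) =
        ((gaussianReal 0 1).map (fun z => σ * z)).map
          (fun z => (β * y i + (1 - β) * ((1 / (N:ℝ)) * ∑ k, y k)) + z) := by
      rw [Measure.map_map (by fun_prop) (by fun_prop)]
      rfl
    rw [h3]
    rw [show (fun z => σ * z) = (σ * ·) from rfl, h2, gaussianReal_map_const_add, mul_one,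
      mul_zero, zero_add]
    rfl
  simp_rw [h1]
  rw [← Measure.pi_map_pi (fun i => by fun_prop), Measure.map_map (by fun_prop) (by fun_prop)]
  congr 1
  ext z i
  simp only [Function.comp_apply, stepMap, PiLp.add_apply, inner_cst_smul hN, PiLp.smul_apply,
    pr_cst_apply hN, smul_eq_mul, ← hσ]
  ring

/-- one-dimensional marginals of a multivariate Gaussian -/
lemma multivariateGaussian_map_inner {d : ℕ} (u m : EuclideanSpace ℝ (Fin d))
    {S : Matrix (Fin d) (Fin d) ℝ} (hS : S.PosSemidef) :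
    (multivariateGaussian m S).map (fun Y => ⟪u, Y⟫) =
      gaussianReal ⟪u, m⟫ (u ⬝ᵥ S *ᵥ u).toNNReal := by
  have hnn : 0 ≤ u ⬝ᵥ S *ᵥ u := by
    have := hS.dotProduct_mulVec_nonneg (u : Fin d → ℝ)
    simpa using this
  have : IsProbabilityMeasure ((multivariateGaussian m S).map (fun Y => ⟪u, Y⟫)) :=
    Measure.isProbabilityMeasure_map (by fun_prop)
  apply Measure.ext_of_charFun
  ext t
  rw [charFun_gaussianReal, charFun_apply_real, integral_map (by fun_prop) (by fun_prop)]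
  have h1 := charFun_multivariateGaussian (μ := m) hS (t • u)
  rw [charFun_apply] at h1
  have h2 : ∀ Y : EuclideanSpace ℝ (Fin d), Complex.exp (t * (⟪u, Y⟫ : ℝ) * Complex.I) =
      Complex.exp ((⟪Y, t • u⟫ : ℝ) * Complex.I) := by
    intro Y
    rw [inner_smul_right, real_inner_comm]
    push_cast
    rfl
  simp_rw [h2]
  rw [h1]
  congr 1
  have h3 : (t • u : EuclideanSpace ℝ (Fin d)) ⬝ᵥ S *ᵥ (t • u : EuclideanSpace ℝ (Fin d)) =
      t^2 * (u ⬝ᵥ S *ᵥ u) := by
    simp only [WithLp.ofLp_smul, Matrix.mulVec_smul, smul_dotProduct, dotProduct_smul, smul_eq_mul]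
    ring
  rw [h3, inner_smul_left, Real.coe_toNNReal _ hnn]
  simp
  ring

/-- a Gaussian vector with covariance `(ρ/N) Wᵀ W` as a random linear combination of the rows of
`W` -/
lemma multivariateGaussian_eq_map {N d : ℕ} (ρ : ℝ) (hρ : 0 ≤ ρ)
    (m : EuclideanSpace ℝ (Fin d)) (w : Fin N → EuclideanSpace ℝ (Fin d)) :
    multivariateGaussian m (ρ • ((1 / (N:ℝ)) • ((Matrix.of fun k a => w k a)ᵀ *
      (Matrix.of fun k a => w k a)))) =
      (stdGaussian (EuclideanSpace ℝ (Fin N))).map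
        (fun g => m + √(ρ / N) • ∑ k, g k • w k) := by
  set W : Matrix (Fin N) (Fin d) ℝ := Matrix.of fun k a => w k a with hW
  have hS : (ρ • ((1 / (N:ℝ)) • (Wᵀ * W))).PosSemidef := by
    apply Matrix.PosSemidef.smul _ hρ
    apply Matrix.PosSemidef.smul _ (by positivity)
    have := Matrix.posSemidef_conjTranspose_mul_self W
    rwa [Matrix.conjTranspose_eq_transpose_of_trivial] at this
  have hmeas : Measurable (fun g : EuclideanSpace ℝ (Fin N) => m + √(ρ / N) • ∑ k, g k • w k) := by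
    fun_prop
  have : IsProbabilityMeasure ((stdGaussian (EuclideanSpace ℝ (Fin N))).map
      (fun g => m + √(ρ / N) • ∑ k, g k • w k)) :=
    Measure.isProbabilityMeasure_map hmeas.aemeasurable
  apply Measure.ext_of_charFun
  ext t
  rw [charFun_multivariateGaussian hS, charFun_apply, integral_map hmeas.aemeasurable
    (by fun_prop)]
  set q : EuclideanSpace ℝ (Fin N) := WithLp.toLp 2 (fun k => ⟪w k, t⟫) with hq
  have h1 : ∀ g : EuclideanSpace ℝ (Fin N),
      Complex.exp ((⟪m + √(ρ / N) • ∑ k, g k • w k, t⟫ : ℝ) * Complex.I) =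
      Complex.exp ((⟪m, t⟫ : ℝ) * Complex.I) *
        Complex.exp ((⟪g, √(ρ / N) • q⟫ : ℝ) * Complex.I) := by
    intro g
    rw [← Complex.exp_add, ← add_mul, ← Complex.ofReal_add]
    congr 3
    rw [inner_add_left, inner_smul_left, sum_inner, inner_smul_right]
    congr 2
    rw [PiLp.inner_apply]
    apply Finset.sum_congr rfl
    intro k _
    rw [inner_smul_left]
    simp [hq, mul_comm]
  simp_rw [h1]
  rw [integral_const_mul, ← charFun_apply, charFun_stdGaussian, ← Complex.exp_add]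
  congr 1
  rw [real_inner_comm, sub_eq_add_neg]
  congr 1
  rw [norm_smul, ← neg_div]
  congr 2
  have h2 : ‖q‖^2 = t ⬝ᵥ (Wᵀ * W) *ᵥ t := by
    rw [EuclideanSpace.norm_eq, Real.sq_sqrt (by positivity)]
    rw [← Matrix.mulVec_mulVec, Matrix.dotProduct_mulVec, Matrix.vecMul_transpose]
    simp only [dotProduct]
    apply Finset.sum_congr rfl
    intro k _
    rw [Real.norm_eq_abs, sq_abs, sq]
    have h3 : q k = (W *ᵥ t) k := by
      simp only [hq, hW, Matrix.mulVec, dotProduct, Matrix.of_apply, PiLp.inner_apply]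
      apply Finset.sum_congr rfl
      intro a _
      simp
      ring
    rw [h3]
  have h4 : ((‖√(ρ / N)‖ * ‖q‖)^2 : ℝ) = t ⬝ᵥ (ρ • ((1 / (N:ℝ)) • (Wᵀ * W))) *ᵥ t := by
    rw [mul_pow, h2, Real.norm_eq_abs, sq_abs, Real.sq_sqrt (by positivity)]
    simp only [Matrix.smul_mulVec, dotProduct_smul, smul_eq_mul]
    ring
  exact_mod_cast congrArg (fun x : ℝ => (x : ℂ)) h4.symm

end Pool.Agent.Lib.MP_21b2a2_pr
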